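import Mathlib

/-!
# Definitions
-/

namespace Pool.Agent.X294.GR

open PowerSeries

/-- `tan (π/8)` -/
noncomputable def q : ℝ := √2 - 1

/-- two-variable series: the outer variable is `x`, the inner one is `y` -/
abbrev S2 := PowerSeries (PowerSeries ℝ)

/-- the variable `x` -/
noncomputable abbrev vx : S2 := X
/-- the variable `y` -/
noncomputable abbrev vy : S2 := C X

/-- the coefficient of `x^i y^j` -/
noncomputable def ent (F : S2) (i j : ℕ) : ℝ := coeff j (coeff i F)

/-- The Pfaffian of a skew-symmetric matrix of size `2m`: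
`(1 / (2^m m!)) ∑_σ sign σ ∏_i A_{σ(2i), σ(2i+1)}`. -/
def pr (m : ℕ) (i : Fin m) (j : Fin 2) : Fin (2 * m) := ⟨2 * i + j, by have := i.2; have := j.2; omega⟩

/-- The Pfaffian of a skew-symmetric matrix of size `2m`. -/
noncomputable def pf {m : ℕ} (A : Matrix (Fin (2 * m)) (Fin (2 * m)) ℝ) : ℝ :=
  (∑ σ : Equiv.Perm (Fin (2 * m)), ((Equiv.Perm.sign σ : ℤ) : ℝ)
    * ∏ i : Fin m, A (σ (pr m i 0)) (σ (pr m i 1))) / (2 ^ m * (m.factorial : ℝ))

end Pool.Agent.X294.GR
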