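import Pool.Agent.X294.GR.Defs

/-!
# Minor summation
-/

namespace Pool.Agent.X294.GR

open Finset

/-- The enumeration as an equivalence. -/
def ee (m : ℕ) : Fin m × Fin 2 ≃ Fin (2 * m) where
  toFun p := pr m p.1 p.2
  invFun x := (⟨x / 2, by have := x.2; omega⟩, ⟨x % 2, Nat.mod_lt _ (by norm_num)⟩)
  left_inv p := by
    rcases p with ⟨i, j⟩
    have hj := j.2
    apply Prod.ext
    · apply Fin.ext
      simp only [pr]; omega
    · apply Fin.ext
      simp only [pr]; omega
  right_inv x := by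
    apply Fin.ext
    simp only [pr]; omega

variable {m : ℕ}

/-- Functions on `Fin (2m)` as families of pairs. -/
def fe (m : ℕ) (K : Type*) : (Fin m → Fin 2 → K) ≃ (Fin (2 * m) → K) :=
  (Equiv.curry (Fin m) (Fin 2) K).symm.trans (Equiv.arrowCongr (ee m) (Equiv.refl K))

theorem fe_apply (K : Type*) (φ : Fin m → Fin 2 → K) (i : Fin m) (j : Fin 2) :
    fe m K φ (pr m i j) = φ i j := by
  change φ ((ee m).symm (pr m i j)).1 ((ee m).symm (pr m i j)).2 = φ i j
  have h : (ee m).symm (pr m i j) = (i, j) := (ee m).left_inv (i, j)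
  rw [h]

theorem prod_pairs (h : Fin (2 * m) → ℝ) :
    ∏ x, h x = ∏ i : Fin m, (h (pr m i 0) * h (pr m i 1)) := by
  rw [← Equiv.prod_comp (ee m), Fintype.prod_prod_type]
  apply Finset.prod_congr rfl
  intro i _
  rw [Fin.prod_univ_two]
  rfl

theorem sum_two {K : Type*} [Fintype K] (g : K → K → ℝ) :
    ∑ ψ : Fin 2 → K, g (ψ 0) (ψ 1) = ∑ k, ∑ l, g k l := by
  rw [← Fintype.sum_prod_type' , ← Equiv.sum_comp (finTwoArrowEquiv K)]
  rfl

variable {L : Type*} [Fintype L]

/-- Expansion of the product of the entries of `B A Bᵀ`. -/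
theorem prod_expand (A : Matrix L L ℝ) (B : Matrix (Fin (2 * m)) L ℝ)
    (s : Fin (2 * m) → Fin (2 * m)) :
    ∏ i : Fin m, (B * A * B.transpose) (s (pr m i 0)) (s (pr m i 1))
      = ∑ f : Fin (2 * m) → L, (∏ x, B (s x) (f x))
        * ∏ i : Fin m, A (f (pr m i 0)) (f (pr m i 1)) := by
  classical
  rw [← Equiv.sum_comp (fe m L)]
  have h1 : ∀ φ : Fin m → Fin 2 → L,
      (∏ x, B (s x) (fe m _ φ x)) * ∏ i : Fin m, A (fe m _ φ (pr m i 0)) (fe m _ φ (pr m i 1))
      = ∏ i : Fin m, (B (s (pr m i 0)) (φ i 0) * B (s (pr m i 1)) (φ i 1) * A (φ i 0) (φ i 1)) := by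
    intro φ
    rw [prod_pairs, ← Finset.prod_mul_distrib]
    apply Finset.prod_congr rfl
    intro i _
    simp only [fe_apply]
  rw [Finset.sum_congr rfl (fun φ _ => h1 φ)]
  have h2 := Finset.prod_univ_sum (fun _ : Fin m => (Finset.univ : Finset (Fin 2 → L)))
    (fun i ψ => B (s (pr m i 0)) (ψ 0) * B (s (pr m i 1)) (ψ 1) * A (ψ 0) (ψ 1))
  rw [Fintype.piFinset_univ] at h2
  rw [← h2]
  apply Finset.prod_congr rfl
  intro i _
  rw [sum_two (fun k l => B (s (pr m i 0)) k * B (s (pr m i 1)) l * A k l)]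
  simp only [Matrix.mul_apply, Matrix.transpose_apply, Finset.sum_mul]
  rw [Finset.sum_comm]
  apply Finset.sum_congr rfl
  intro k _
  apply Finset.sum_congr rfl
  intro l _
  ring

/-- minor summation, as a sum over all functions -/
theorem pf_minor (A : Matrix L L ℝ) (B : Matrix (Fin (2 * m)) L ℝ) :
    pf (B * A * B.transpose) = (∑ f : Fin (2 * m) → L,
      (∏ i : Fin m, A (f (pr m i 0)) (f (pr m i 1))) * (B.submatrix id f).det)
        / (2 ^ m * (m.factorial : ℝ)) := by
  classical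
  unfold pf
  congr 1
  have h1 : ∀ σ : Equiv.Perm (Fin (2 * m)), ((Equiv.Perm.sign σ : ℤ) : ℝ)
      * ∏ i : Fin m, (B * A * B.transpose) (σ (pr m i 0)) (σ (pr m i 1))
      = ∑ f : Fin (2 * m) → L, (∏ i : Fin m, A (f (pr m i 0)) (f (pr m i 1)))
        * (((Equiv.Perm.sign σ : ℤ) : ℝ) * ∏ x, B (σ x) (f x)) := by
    intro σ
    rw [prod_expand, Finset.mul_sum]
    apply Finset.sum_congr rfl
    intro f _
    ring
  rw [Finset.sum_congr rfl (fun σ _ => h1 σ), Finset.sum_comm]
  apply Finset.sum_congr rfl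
  intro f _
  rw [← Finset.mul_sum, Matrix.det_apply']
  rfl

/-- `Pf (B A Bᵀ) = det B · Pf A`. -/
theorem pf_congr (A B : Matrix (Fin (2 * m)) (Fin (2 * m)) ℝ) :
    pf (B * A * B.transpose) = B.det * pf A := by
  rw [pf_minor]
  unfold pf
  rw [mul_div_assoc']
  congr 1
  rw [Finset.mul_sum]
  symm
  apply Finset.sum_of_injOn (fun τ : Equiv.Perm (Fin (2 * m)) => (τ : Fin (2 * m) → Fin (2 * m)))
  · intro a _ b _ hab
    exact Equiv.coe_fn_injective hab
  · intro a _; simp
  · intro f _ hf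
    have hinj : ¬ Function.Injective f := by
      intro hi
      apply hf
      refine ⟨Equiv.ofBijective f ((Finite.injective_iff_bijective).1 hi), by simp, ?_⟩
      rfl
    rw [Function.Injective] at hinj
    push_neg at hinj
    obtain ⟨x, y, hxy, hne⟩ := hinj
    rw [Matrix.det_zero_of_column_eq hne, mul_zero]
    intro k
    simp [hxy]
  · intro τ _
    rw [Matrix.det_permute']
    ring

theorem pf_smul (c : ℝ) (A : Matrix (Fin (2 * m)) (Fin (2 * m)) ℝ) :
    pf (c • A) = c ^ m * pf A := by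
  unfold pf
  rw [mul_div_assoc', Finset.mul_sum]
  congr 1
  apply Finset.sum_congr rfl
  intro σ _
  have : ∏ i : Fin m, (c • A) (σ (pr m i 0)) (σ (pr m i 1))
      = c ^ m * ∏ i : Fin m, A (σ (pr m i 0)) (σ (pr m i 1)) := by
    simp only [Matrix.smul_apply, smul_eq_mul]
    rw [Finset.prod_mul_distrib]
    simp
  rw [this]
  ring

theorem pf_cont : Continuous (fun A : Matrix (Fin (2 * m)) (Fin (2 * m)) ℝ => pf A) := by
  unfold pf
  apply Continuous.div_const
  apply continuous_finset_sum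
  intro σ _
  apply Continuous.mul continuous_const
  apply continuous_finset_prod
  intro i _
  exact (continuous_apply _).comp (continuous_apply _)

end Pool.Agent.X294.GR
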