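import Pool.Agent.X294.GR.Ker

/-!
# Bordered matrices
-/

namespace Pool.Agent.X294.GR

/-- the array `a` (indices up to `2M`) with one more column `g` -/
def bd (M : ℕ) (a : ℕ → ℕ → ℝ) (g : ℕ → ℝ) : Matrix (Fin (2 * (M + 1))) (Fin (2 * (M + 1))) ℝ :=
  Matrix.of fun i j => if (i : ℕ) < 2 * M + 1 then (if (j : ℕ) < 2 * M + 1 then a i j else g i)
    else (if (j : ℕ) < 2 * M + 1 then - g j else 0)

/-- coefficient function of a series -/
noncomputable def cf (g : S1) (i : ℕ) : ℝ := PowerSeries.coeff i g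

end Pool.Agent.X294.GR
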