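import Pool.Agent.X294.GR.Ker

/-!
# Decay of the coefficients of `z^k`
-/

namespace Pool.Agent.X294.GR

open Finset PowerSeries Filter Topology

theorem choose_pow_tendsto {q : ℝ} (h0 : 0 < q) (h1 : q < 1) (j : ℕ) :
    Tendsto (fun k : ℕ => (k.choose j : ℝ) * q ^ (k - j)) atTop (nhds 0) := by
  have h2 : Tendsto (fun k : ℕ => (k : ℝ) ^ j * q ^ k) atTop (nhds 0) :=
    tendsto_pow_const_mul_const_pow_of_lt_one j h0.le h1
  have h3 : Tendsto (fun k : ℕ => ((k : ℝ) ^ j * q ^ k) * (q ^ j)⁻¹) atTop (nhds 0) := by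
    simpa using h2.mul_const ((q ^ j)⁻¹)
  apply squeeze_zero' _ _ h3
  · filter_upwards with k
    positivity
  · filter_upwards [eventually_ge_atTop j] with k hk
    have e : q ^ k = q ^ (k - j) * q ^ j := by rw [← pow_add, Nat.sub_add_cancel hk]
    have e2 : ((k : ℝ) ^ j * q ^ k) * (q ^ j)⁻¹ = (k : ℝ) ^ j * q ^ (k - j) := by
      rw [e]; field_simp
    rw [e2]
    apply mul_le_mul_of_nonneg_right _ (by positivity)
    exact_mod_cast Nat.choose_le_pow k j

theorem dec {q : ℝ} (h0 : 0 < q) (h1 : q < 1) (i : ℕ) :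
    Tendsto (fun k : ℕ => coeff i (zz q ^ k)) atTop (nhds 0) := by
  -- `z = q + X g`
  obtain ⟨g, hg⟩ : ∃ g : S1, zz q = X * g + C q := by
    have h : X ∣ zz q - C q := by
      rw [X_dvd_iff, map_sub]
      have := zz_0 q
      rw [coeff_zero_eq_constantCoeff] at this
      rw [this]; simp
    obtain ⟨g, hg⟩ := h
    exact ⟨g, by linear_combination hg⟩
  have h2 : ∀ k : ℕ, i ≤ k → coeff i (zz q ^ k) =
      ∑ j ∈ range (i + 1), ((k.choose j : ℝ) * q ^ (k - j)) * coeff i ((X * g) ^ j) := by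
    intro k hk
    rw [hg, add_pow, map_sum]
    have hsub : range (i + 1) ⊆ range (k + 1) := by
      intro a ha
      rw [Finset.mem_range] at ha ⊢
      omega
    rw [← Finset.sum_subset hsub]
    · apply Finset.sum_congr rfl
      intro j _
      have e : (X * g) ^ j * (C q) ^ (k - j) * ((k.choose j : ℕ) : S1) =
          C ((k.choose j : ℝ) * q ^ (k - j)) * (X * g) ^ j := by
        rw [map_mul, map_pow, map_natCast]; ring
      rw [e, coeff_C_mul]
    · intro j _ hj
      rw [Finset.mem_range] at hj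
      have e : (X * g) ^ j * (C q) ^ (k - j) * ((k.choose j : ℕ) : S1) =
          X ^ j * (g ^ j * (C q) ^ (k - j) * ((k.choose j : ℕ) : S1)) := by
        rw [mul_pow]; ring
      rw [e, coeff_X_pow_mul', if_neg (by omega)]
  have h3 : Tendsto (fun k : ℕ => ∑ j ∈ range (i + 1),
      ((k.choose j : ℝ) * q ^ (k - j)) * coeff i ((X * g) ^ j)) atTop (nhds 0) := by
    rw [show (0 : ℝ) = ∑ j ∈ range (i + 1), 0 * coeff i ((X * g) ^ j) by simp]
    apply tendsto_finset_sum
    intro j _
    exact (choose_pow_tendsto h0 h1 j).mul_const _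
  apply h3.congr'
  filter_upwards [eventually_ge_atTop i] with k hk
  rw [h2 k hk]

end Pool.Agent.X294.GR
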