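import Pool.Agent.X294.GR.Idn
import Pool.Agent.X294.GR.Dec
import Pool.Agent.X291.GR.Kern
import Pool.Agent.X287.BP.Arr
import Pool.Agent.X287.BP.Growth

/-!
# The first limit
-/

namespace Pool.Agent.X294.GR

open Finset PowerSeries Filter Topology

/-- The array above the diagonal: `uu i d = a (i+1) (i+d+2)`. -/
def uu : ℕ → ℕ → ℤ
  | 0, _ => 2
  | i + 1, 0 => uu i 1 + uu i 0 + 2 * (-1) ^ (i + 1)
  | i + 1, d + 1 => uu i (d + 2) + uu (i + 1) d + uu i (d + 1)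

/-- The skew-symmetric array of the problem. -/
def aa (i j : ℕ) : ℤ :=
  if i < j then uu (i - 1) (j - i - 1) else if j < i then - uu (j - 1) (i - j - 1) else 0

theorem aa_1 (j : ℕ) (hj : 1 < j) : aa 1 j = 2 := by
  unfold aa
  rw [if_pos hj]
  simp [uu]

theorem aa_2 (i j : ℕ) (hi : 1 < i) (hj : i + 1 < j) :
    aa i j = aa (i - 1) j + aa i (j - 1) + aa (i - 1) (j - 1) := by
  obtain ⟨k, rfl⟩ : ∃ k, i = k + 2 := ⟨i - 2, by omega⟩
  obtain ⟨d, rfl⟩ : ∃ d, j = k + 2 + d + 2 := ⟨j - (k + 4), by omega⟩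
  unfold aa
  rw [if_pos (by omega), if_pos (by omega), if_pos (by omega), if_pos (by omega)]
  have e1 : k + 2 - 1 = k + 1 := by omega
  have e2 : k + 2 + d + 2 - (k + 2) - 1 = d + 1 := by omega
  have e3 : k + 2 - 1 - 1 = k := by omega
  have e4 : k + 2 + d + 2 - (k + 2 - 1) - 1 = d + 2 := by omega
  have e5 : k + 2 + d + 2 - 1 - (k + 2) - 1 = d := by omega
  have e6 : k + 2 + d + 2 - 1 - (k + 2 - 1) - 1 = d + 1 := by omega
  rw [e4, e5, e6, e2, e3, e1]
  rw [uu]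

theorem aa_3 (i : ℕ) (hi : 1 < i) :
    aa i (i + 1) = aa (i - 1) (i + 1) + aa (i - 1) i + 2 * (-1) ^ (i - 1) := by
  obtain ⟨k, rfl⟩ : ∃ k, i = k + 2 := ⟨i - 2, by omega⟩
  unfold aa
  rw [if_pos (by omega), if_pos (by omega), if_pos (by omega)]
  have e1 : k + 2 - 1 = k + 1 := by omega
  have e2 : k + 2 + 1 - (k + 2) - 1 = 0 := by omega
  have e3 : k + 2 - 1 - 1 = k := by omega
  have e4 : k + 2 + 1 - (k + 2 - 1) - 1 = 1 := by omega
  have e5 : k + 2 - (k + 2 - 1) - 1 = 0 := by omega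
  rw [e4, e5, e2, e3, e1]
  rw [uu]

theorem aa_4 (i j : ℕ) (hj : j ≤ i) : aa i j = - aa j i := by
  unfold aa
  rcases Nat.lt_or_ge j i with h | h
  · rw [if_neg (by omega), if_pos h, if_pos h]
  · have : i = j := le_antisymm h hj
    subst this
    simp

/-- `q = √2 - 1` -/
theorem q_eq : q ^ 2 + 2 * q = 1 := by
  unfold q
  have h : √(2 : ℝ) ^ 2 = 2 := Real.sq_sqrt (by norm_num)
  linear_combination h

theorem q_pos : 0 < q := by
  unfold q
  have : (1 : ℝ) < √2 := by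
    rw [show (1 : ℝ) = √1 by simp]
    exact Real.sqrt_lt_sqrt (by norm_num) (by norm_num)
  linarith

theorem q_lt : q < 1 := by
  have h1 := q_eq
  have h2 := q_pos
  nlinarith

/-- the kernel -/
noncomputable def FF : S2 := (vy - vx) * Ring.inverse ((1 + vx * vy) * (1 - vx - vy - vx * vy))

theorem den_unit' : IsUnit ((1 + vx * vy) * (1 - vx - vy - vx * vy) : S2) := by
  rw [PowerSeries.isUnit_iff_constantCoeff, PowerSeries.isUnit_iff_constantCoeff]
  simp [vx, vy]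

theorem FF_spec : (1 + vx * vy) * (1 - vx - vy - vx * vy) * FF = vy - vx := by
  unfold FF
  rw [mul_left_comm, Ring.mul_inverse_cancel _ den_unit', mul_one]

theorem middle (m : ℕ) : pf (mat (2 * m) ((1 + ix (zz q) * iy (zz q)) * FF)) =
    (1 + q ^ 2) ^ m * 2 ^ (m * (m - 1)) := by
  apply Pool.Agent.X291.GR.pf_kernel m (1 + q ^ 2) (rr q)
  · have := rr_0 q
    rwa [coeff_zero_eq_constantCoeff] at this
  · rw [id2]
    have h : (C (C (1 + q ^ 2)) : S2) = 1 + Q q ^ 2 := by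
      simp only [map_add, map_one, map_pow, Q, iy]
    rw [h]
    change (1 - vx - vy - vx * vy) * ((1 + Q q ^ 2) * (1 + vx * vy) * (ix (rr q) * iy (rr q)) * FF) =
      (1 + Q q ^ 2) * (vy - vx) * (ix (rr q) * iy (rr q))
    linear_combination ((1 + Q q ^ 2) * (ix (rr q) * iy (rr q))) * FF_spec

theorem O_FF (m : ℕ) : pf (mat (2 * m) FF) ≤ (1 + q ^ 2) ^ m * 2 ^ (m * (m - 1)) ∧
    (1 + q ^ 2) ^ m * 2 ^ (m * (m - 1)) ≤ 2 ^ m * pf (mat (2 * m) FF) := by
  have h := sandwich q_eq q_pos (dec q_pos q_lt) m FF FF_spec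
  rw [middle] at h
  refine ⟨h.1, h.2.trans (le_of_eq ?_)⟩
  rw [pow_mul]
  congr 2
  linear_combination q_eq

/-- the leading matrix -/
def Amat (N : ℕ) : Matrix (Fin N) (Fin N) ℝ := Matrix.of fun i j => (aa ((i : ℕ) + 1) ((j : ℕ) + 1) : ℝ)

theorem aa_ent (i j : ℕ) : (aa (i + 1) (j + 1) : ℝ) = 2 * ent FF i j := by
  have h := Pool.Agent.X287.BP.Arr.arr FF FF_spec (fun i j => (aa i j : ℝ))
    (fun j hj => by rw [aa_1 j hj]; norm_num)
    (fun i j hi hj => by rw [aa_2 i j hi hj]; push_cast; ring)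
    (fun i hi => by rw [aa_3 i hi]; push_cast; ring)
    (fun i j _ hj => by rw [aa_4 i j hj]; push_cast; ring)
  exact h i j

theorem Amat_eq (N : ℕ) : Amat N = (2 : ℝ) • mat N FF := by
  ext i j
  simp only [Amat, mat, Matrix.of_apply, Matrix.smul_apply, smul_eq_mul]
  exact aa_ent i j

theorem two_pow_split (n : ℕ) : (2 : ℝ) ^ (n ^ 2) = 2 ^ n * 2 ^ (n * (n - 1)) := by
  rw [← pow_add]
  congr 1
  rcases n with _ | n
  · rfl
  · rw [Nat.add_sub_cancel]; ring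

/-- **Explicit bounds.** -/
theorem O_bounds (n : ℕ) : (1 + q ^ 2) ^ n * 2 ^ (n ^ 2) ≤ 2 ^ n * pf (Amat (2 * n)) ∧
    pf (Amat (2 * n)) ≤ (1 + q ^ 2) ^ n * 2 ^ (n ^ 2) := by
  obtain ⟨h1, h2⟩ := O_FF n
  rw [Amat_eq, pf_smul, two_pow_split]
  have h3 : (0 : ℝ) < 2 ^ n := by positivity
  constructor
  · calc (1 + q ^ 2) ^ n * (2 ^ n * 2 ^ (n * (n - 1))) =
        2 ^ n * ((1 + q ^ 2) ^ n * 2 ^ (n * (n - 1))) := by ring
      _ ≤ 2 ^ n * (2 ^ n * pf (mat (2 * n) FF)) := mul_le_mul_of_nonneg_left h2 h3.le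
  · calc 2 ^ n * pf (mat (2 * n) FF) ≤ 2 ^ n * ((1 + q ^ 2) ^ n * 2 ^ (n * (n - 1))) :=
        mul_le_mul_of_nonneg_left h1 h3.le
      _ = _ := by ring

/-- **The first limit.** -/
theorem O_limit : Tendsto (fun n : ℕ => (pf (Amat (2 * n))) ^ ((2 : ℝ) / (2 * n) ^ 2)) atTop
    (nhds (√2)) := by
  apply Pool.Agent.X287.BP.Growth.growth (fun n => pf (Amat (2 * n))) 2 (by norm_num)
  · intro n
    have h := (O_bounds n).1
    refine le_trans ?_ h
    have : (1 : ℝ) ≤ (1 + q ^ 2) ^ n := one_le_pow₀ (by nlinarith [sq_nonneg q])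
    nlinarith [show (0 : ℝ) < 2 ^ (n ^ 2) by positivity]
  · intro n
    have h := (O_bounds n).2
    refine le_trans h ?_
    apply mul_le_mul_of_nonneg_right _ (by positivity)
    apply pow_le_pow_left₀ (by positivity)
    have h1 := q_pos
    have h2 := q_lt
    nlinarith

end Pool.Agent.X294.GR
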