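import Pool.Agent.X294.GR.Bor
import Pool.Agent.X294.GR.Osym
import Pool.Agent.X287.BP.Bord
import Pool.Agent.X291.GR.Bk

/-!
# The bordered sandwich
-/

namespace Pool.Agent.X294.GR

open Finset PowerSeries Filter Topology

/-- `1 / (2q)` -/
noncomputable def ai : ℝ := 1 / (2 * q)

theorem ai_pos : 0 < ai := by
  have := q_pos
  unfold ai; positivity

theorem hCa : 2 * Q q * iy (C ai) = 1 := by
  have h : (2 * q) * ai = 1 := by have := q_pos; unfold ai; field_simp
  have h' := congrArg (fun a : ℝ => iy (C a)) h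
  simp only [map_mul, map_one, map_ofNat] at h'
  exact h'

noncomputable def E1 : S2 := iy (C ai) * FF
noncomputable def E2 : S2 := (1 + ix (zz q) * iy (zz q)) * E1

theorem E1_spec : E1 * (1 - ix (zz q) ^ 2 * iy (zz q) ^ 2) =
    ix (rr q) * iy (rr q) * (iy (zz q) - ix (zz q)) := by
  have h1 := id1 q_eq FF FF_spec
  unfold E1
  rw [mul_assoc, h1]
  linear_combination (ix (rr q) * iy (rr q) * (iy (zz q) - ix (zz q))) * hCa

theorem one_add_ne : (1 + ix (zz q) * iy (zz q)) ≠ 0 := by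
  intro h
  have h1 := congrArg (fun F : S2 => ent F 0 0) h
  have h2 : ent (1 + ix (zz q) * iy (zz q)) 0 0 = 1 + q * q := by
    rw [ent_add, ent_prod, zz_0]
    simp [ent]
  have h3 : ent (0 : S2) 0 0 = 0 := by simp [ent]
  beta_reduce at h1
  rw [h2, h3] at h1
  nlinarith [q_pos]

theorem E2_spec : E2 = ix (zz q) * (iy (zz q) * E2) +
    (ix (rr q) * iy (zz q * rr q) - ix (zz q * rr q) * iy (rr q)) := by
  apply mul_left_cancel₀ one_add_ne
  have h := E1_spec
  unfold E2
  simp only [map_mul]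
  linear_combination (1 + ix (zz q) * iy (zz q)) * h

theorem E1_spec' : E1 = ix (zz q) * (iy (zz q) * (ix (zz q) * (iy (zz q) * E1))) +
    (ix (rr q) * iy (zz q * rr q) - ix (zz q * rr q) * iy (rr q)) := by
  have h := E1_spec
  simp only [map_mul]
  linear_combination h

theorem E2_ker : (1 - vx - vy - vx * vy) * E2 =
    C (C (ai * (1 + q ^ 2))) * (vy - vx) * (ix (rr q) * iy (rr q)) := by
  unfold E2 E1
  rw [id2]
  have h : (C (C (ai * (1 + q ^ 2))) : S2) = iy (C ai) * (1 + Q q ^ 2) := by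
    simp only [map_add, map_one, map_pow, Q, iy, map_mul]
  rw [h]
  linear_combination (iy (C ai) * (1 + Q q ^ 2) * (ix (rr q) * iy (rr q))) * FF_spec

/-- border weights -/
noncomputable def hw (s : ℕ) : ℝ := if s % 2 = 0 then 1 else q

/-- weights `(1, 0, 0, …)` -/
noncomputable def w10 (s : ℕ) : ℝ := if s = 0 then 1 else 0

theorem GW_w10 : GW q 2 w10 = iy (zz q) - ix (zz q) := by
  simp only [GW, Fin.sum_univ_two, al, be, Fin.val_zero, Fin.val_one, w10, if_true]
  norm_num

theorem GW_one : GW q 2 (fun _ => 1) = (iy (zz q) - ix (zz q)) * (1 + ix (zz q) * iy (zz q)) := by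
  simp only [GW, Fin.sum_univ_two, al, be, Fin.val_zero, Fin.val_one, map_one]
  ring

theorem GW3 : GW q 3 (fun _ => 1) = (iy (zz q) - ix (zz q)) * ((1 + ix (zz q)) * (1 + iy (zz q))) := by
  simp only [GW, Fin.sum_univ_three, al, be, Fin.val_zero, Fin.val_one, Fin.val_two, map_one]
  ring

/-- weights `(1, 1, 0, …)` -/
noncomputable def w110 (s : ℕ) : ℝ := if s ≤ 1 then 1 else 0

theorem GW3' : GW q 3 w110 = (iy (zz q) - ix (zz q)) * (1 + ix (zz q) * iy (zz q)) := by
  simp only [GW, Fin.sum_univ_three, al, be, Fin.val_zero, Fin.val_one, Fin.val_two, w110]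
  norm_num
  ring

/-- weights `(0, 1, 0, …)` -/
noncomputable def w01 (s : ℕ) : ℝ := if s = 1 then 1 else 0

/-- the border limits -/
theorem border_tail (P : S1) (i : ℕ) :
    Tendsto (fun K : ℕ => coeff i (zz q ^ (2 * K) * P)) atTop (nhds 0) := by
  have hD := dec q_pos q_lt
  have h2 : Tendsto (fun K : ℕ => 2 * K) atTop atTop :=
    tendsto_atTop_mono (fun n => by simp only [id]; omega) tendsto_id
  have h1 : Tendsto (fun k : ℕ => coeff i (zz q ^ k * P)) atTop (nhds 0) := by
    simp only [coeff_mul]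
    rw [show (0 : ℝ) = ∑ p ∈ antidiagonal i, 0 * coeff p.2 P by simp]
    apply tendsto_finset_sum
    intro p _
    exact (hD p.1).mul_const _
  exact h1.comp h2

theorem sum_pairs (c0 c1 : ℝ) (c : ℕ → ℝ) (h0 : ∀ k, c (2 * k) = c0) (h1 : ∀ k, c (2 * k + 1) = c1)
    (K : ℕ) : (∑ s : Fin (2 * K), C (c s) * (zz q ^ (s : ℕ) * rr q)) * (1 - zz q ^ 2) =
      (1 - zz q ^ (2 * K)) * (rr q * (C c0 + C c1 * zz q)) := by
  rw [← Finset.sum_range (fun s => C (c s) * (zz q ^ s * rr q))]
  induction K with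
  | zero => simp
  | succ K ih =>
    rw [show 2 * (K + 1) = 2 * K + 1 + 1 by ring, Finset.sum_range_succ, Finset.sum_range_succ,
      add_mul, add_mul, ih, h0, h1]
    ring

theorem border_lim (c0 c1 : ℝ) (c : ℕ → ℝ) (h0 : ∀ k, c (2 * k) = c0)
    (h1 : ∀ k, c (2 * k + 1) = c1) (γ : S1)
    (hγ : γ * (1 - zz q ^ 2) = rr q * (C c0 + C c1 * zz q)) (i : ℕ) :
    Tendsto (fun K : ℕ => coeff i (∑ s : Fin (2 * K), C (c s) * (zz q ^ (s : ℕ) * rr q)))
      atTop (nhds (coeff i γ)) := by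
  have hne : (1 - zz q ^ 2) ≠ 0 := by
    intro h
    have h' := congrArg (coeff 0) h
    have hz := zz_0 q
    simp only [coeff_zero_eq_constantCoeff, map_sub, map_one, map_pow, map_zero] at h' hz
    rw [hz] at h'
    have := q_pos
    have := q_lt
    nlinarith
  have h2 : ∀ K : ℕ, ∑ s : Fin (2 * K), C (c s) * (zz q ^ (s : ℕ) * rr q) =
      γ - zz q ^ (2 * K) * γ := by
    intro K
    apply mul_right_cancel₀ hne
    rw [sum_pairs c0 c1 c h0 h1 K, ← hγ]
    ring
  simp only [h2, map_sub]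
  have h3 := (border_tail γ i).const_sub (coeff i γ)
  simpa using h3

/-- upper and lower comparison -/
theorem bor_upper (M : ℕ) (γ1 γ2 : S1) (h1 : γ1 * (1 - zz q ^ 2) = rr q * (C 1 + C q * zz q))
    (h2 : γ2 * (1 - zz q ^ 2) = rr q * (C 1 + C 1 * zz q)) :
    pf (bd M (ent E1) (cf γ1)) ≤ pf (bd M (ent E2) (cf γ2)) := by
  have hq := q_pos
  have hq1 := q_lt
  apply comp_bd q_pos (dec q_pos q_lt) M 2 0 (fun K => 2 * K) (by norm_num) rfl (Or.inl le_rfl)
    w10 hw (fun _ => 1) (fun _ => 1)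
  · intro t; unfold w10; split_ifs <;> norm_num
  · intro t; unfold hw; split_ifs <;> linarith
  · intro t; unfold w10; split_ifs <;> norm_num
  · intro t; unfold hw; split_ifs <;> linarith
  · rw [GW_w10, pow_zero, one_mul, E1_spec]
  · exact border_lim 1 q hw (fun k => by simp [hw]) (fun k => by
      have : (2 * k + 1) % 2 = 1 := by omega
      simp [hw, this]) γ1 h1
  · rw [GW_one, pow_zero, one_mul]
    have h := E1_spec
    unfold E2
    linear_combination (1 + ix (zz q) * iy (zz q)) * h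
  · exact border_lim 1 1 (fun _ => 1) (fun k => rfl) (fun k => rfl) γ2 h2

theorem bor_lower0 (M : ℕ) (γ1 : S1) (h1 : γ1 * (1 - zz q ^ 2) = rr q * (C 1 + C q * zz q)) :
    pf (bd M (ent E1) (cf (rr q))) ≤ pf (bd M (ent E1) (cf γ1)) := by
  have hq := q_pos
  have hq1 := q_lt
  apply comp_bd q_pos (dec q_pos q_lt) M 2 0 (fun K => 2 * K) (by norm_num) rfl (Or.inl le_rfl)
    w10 w10 w10 hw
  · intro t; unfold w10; split_ifs <;> norm_num
  · intro t; unfold w10; split_ifs <;> norm_num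
  · intro t; exact le_rfl
  · intro t; unfold w10 hw
    split_ifs with h2 h3 h3
    · norm_num
    · exfalso; subst h2; simp at h3
    · norm_num
    · exact hq.le
  · rw [GW_w10, pow_zero, one_mul, E1_spec]
  · intro i
    have h : ∀ᶠ K : ℕ in atTop, coeff i (rr q) =
        coeff i (∑ s : Fin (2 * K), C (w10 s) * (zz q ^ (s : ℕ) * rr q)) := by
      filter_upwards [eventually_ge_atTop 1] with K hK
      congr 1
      rw [← Finset.sum_range (fun s => C (w10 s) * (zz q ^ s * rr q))]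
      rw [Finset.sum_eq_single 0]
      · simp [w10]
      · intro b _ hb
        simp [w10, hb]
      · intro h; exfalso; apply h; rw [Finset.mem_range]; omega
    exact (tendsto_const_nhds).congr' h
  · rw [GW_w10, pow_zero, one_mul, E1_spec]
  · exact border_lim 1 q hw (fun k => by simp [hw]) (fun k => by
      have : (2 * k + 1) % 2 = 1 := by omega
      simp [hw, this]) γ1 h1

theorem bor_lower1 (M : ℕ) :
    pf (bd M (ent (ix (zz q) * (iy (zz q) * (ix (zz q) * (iy (zz q) * E2))))) (cf (zz q * rr q))) ≤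
    pf (bd M (ent (ix (1 + zz q) * (iy (1 + zz q) * (ix (zz q) * (iy (zz q) *
      (ix (zz q) * (iy (zz q) * E1))))))) (cf ((1 + zz q) * rr q))) := by
  apply comp_bd q_pos (dec q_pos q_lt) M 3 2 (fun K => 2) (by norm_num) rfl
    (Or.inr ⟨rfl, fun _ => le_rfl⟩) w110 w01 (fun _ => 1) (fun _ => 1)
  · intro t; unfold w110; split_ifs <;> norm_num
  · intro t; unfold w01; split_ifs <;> norm_num
  · intro t; unfold w110; split_ifs <;> norm_num
  · intro t; unfold w01; split_ifs <;> norm_num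
  · rw [GW3']
    have h := E1_spec
    unfold E2
    linear_combination ((1 + ix (zz q) * iy (zz q)) * (ix (zz q) * iy (zz q)) ^ 2) * h
  · intro i
    have h : ∑ s : Fin 2, C (w01 s) * (zz q ^ (s : ℕ) * rr q) = zz q * rr q := by
      simp [Fin.sum_univ_two, w01]
    simp only [h]
    exact tendsto_const_nhds
  · rw [GW3]
    have h := E1_spec
    simp only [map_add, map_one]
    linear_combination ((1 + ix (zz q)) * (1 + iy (zz q)) * (ix (zz q) * iy (zz q)) ^ 2) * h
  · intro i
    have h : ∑ s : Fin 2, C ((1 : ℝ)) * (zz q ^ (s : ℕ) * rr q) = (1 + zz q) * rr q := by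
      simp [Fin.sum_univ_two]
      ring
    simp only [h]
    exact tendsto_const_nhds

/-- the lower bound -/
theorem bor_lower (M : ℕ) (γ1 : S1) (h1 : γ1 * (1 - zz q ^ 2) = rr q * (C 1 + C q * zz q)) :
    q ^ (2 * M + 1) * ((ai * (1 + q ^ 2)) ^ M * 2 ^ (M ^ 2)) ≤
      (1 + q) ^ (2 * M + 1) * pf (bd M (ent E1) (cf γ1)) := by
  have h := bor_lower1 M
  rw [Pool.Agent.X287.BP.Bord.bd_cong, Pool.Agent.X287.BP.Bord.bd_cong, zz_0] at h
  have h0 : coeff 0 (1 + zz q) = 1 + q := by
    rw [map_add, zz_0]; simp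
  rw [h0] at h
  have s2 := Pool.Agent.X287.BP.Bord.bd_shear M (ix (zz q) * (iy (zz q) * E2)) (rr q) (zz q * rr q)
  rw [← E2_spec] at s2
  have s1 := Pool.Agent.X287.BP.Bord.bd_shear M
    (ix (zz q) * (iy (zz q) * (ix (zz q) * (iy (zz q) * E1)))) (rr q) (zz q * rr q)
  rw [← E1_spec'] at s1
  rw [← s1, ← s2] at h
  have h3 := Pool.Agent.X291.GR.pf_bd M (ai * (1 + q ^ 2)) (rr q)
    (by have := rr_0 q; rwa [coeff_zero_eq_constantCoeff] at this) E2 E2_ker
  rw [h3] at h
  refine h.trans ?_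
  apply mul_le_mul_of_nonneg_left (bor_lower0 M γ1 h1)
  have := q_pos
  positivity

end Pool.Agent.X294.GR
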