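import Pool.Agent.X294.GR.Ker
import Pool.Agent.X287.BP.Minors

/-!
# Kernel identities
-/

namespace Pool.Agent.X294.GR

open Finset PowerSeries Filter Topology

section
variable (q : ℝ)

/-- the constant `q` -/
noncomputable abbrev Q : S2 := iy (C q)

theorem hcx : ix (rr q) * (1 - Q q * vx) = 1 := by
  have h := congrArg ix (rr_mul q)
  simp only [map_mul, map_sub, map_one] at h
  rwa [ix_X, ix_C] at h

theorem hcy : iy (rr q) * (1 - Q q * vy) = 1 := by
  have h := congrArg iy (rr_mul q)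
  simp only [map_mul, map_sub, map_one] at h
  rwa [iy_X] at h

theorem hzx : ix (zz q) * (1 - Q q * vx) = vx + Q q := by
  have h := congrArg ix (zz_mul q)
  simp only [map_mul, map_sub, map_one, map_add] at h
  rwa [ix_X, ix_C] at h

theorem hzy : iy (zz q) * (1 - Q q * vy) = vy + Q q := by
  have h := congrArg iy (zz_mul q)
  simp only [map_mul, map_sub, map_one, map_add] at h
  rwa [iy_X] at h

variable {q}

theorem hQ (hq : q ^ 2 + 2 * q = 1) : Q q ^ 2 + 2 * Q q = 1 := by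
  have h := congrArg (fun a : ℝ => iy (C a)) hq
  simp only [map_add, map_mul, map_pow, map_one, map_ofNat] at h
  exact h

theorem cx_ne : (1 - Q q * vx) ≠ 0 := by
  intro h
  have := hcx q
  rw [h, mul_zero] at this
  exact zero_ne_one this

theorem cy_ne : (1 - Q q * vy) ≠ 0 := by
  intro h
  have := hcy q
  rw [h, mul_zero] at this
  exact zero_ne_one this

/-- the first kernel -/
theorem id1 (hq : q ^ 2 + 2 * q = 1) (F : S2)
    (hF : (1 + vx * vy) * (1 - vx - vy - vx * vy) * F = vy - vx) :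
    F * (1 - ix (zz q) ^ 2 * iy (zz q) ^ 2) =
      2 * Q q * (ix (rr q) * iy (rr q) * (iy (zz q) - ix (zz q))) := by
  have hQ' := hQ hq
  have hx := hcx q
  have hy := hcy q
  have hz := hzx q
  have hw := hzy q
  have hne : (1 - Q q * vx) ^ 2 * (1 - Q q * vy) ^ 2 ≠ 0 :=
    mul_ne_zero (pow_ne_zero _ cx_ne) (pow_ne_zero _ cy_ne)
  apply mul_left_cancel₀ hne
  have e1 : (1 - Q q * vx) ^ 2 * (1 - Q q * vy) ^ 2 * (F * (1 - ix (zz q) ^ 2 * iy (zz q) ^ 2)) =
      F * ((1 - Q q * vx) ^ 2 * (1 - Q q * vy) ^ 2 - (ix (zz q) * (1 - Q q * vx)) ^ 2 *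
        (iy (zz q) * (1 - Q q * vy)) ^ 2) := by ring
  have e2 : (1 - Q q * vx) ^ 2 * (1 - Q q * vy) ^ 2 *
      (2 * Q q * (ix (rr q) * iy (rr q) * (iy (zz q) - ix (zz q)))) =
      2 * Q q * ((ix (rr q) * (1 - Q q * vx)) * (iy (rr q) * (1 - Q q * vy)) *
        ((iy (zz q) * (1 - Q q * vy)) * (1 - Q q * vx) -
          (ix (zz q) * (1 - Q q * vx)) * (1 - Q q * vy))) := by ring
  rw [e1, e2, hx, hy, hz, hw]
  have p1 : (1 - Q q * vx) * (1 - Q q * vy) - (vx + Q q) * (vy + Q q) =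
      2 * Q q * (1 - vx - vy - vx * vy) := by
    linear_combination (-(1 - vx * vy)) * hQ'
  have p2 : (1 - Q q * vx) * (1 - Q q * vy) + (vx + Q q) * (vy + Q q) =
      (1 + Q q ^ 2) * (1 + vx * vy) := by ring
  have p3 : (1 - Q q * vx) ^ 2 * (1 - Q q * vy) ^ 2 - (vx + Q q) ^ 2 * (vy + Q q) ^ 2 =
      2 * Q q * (1 - vx - vy - vx * vy) * ((1 + Q q ^ 2) * (1 + vx * vy)) := by
    rw [← p1, ← p2]; ring
  rw [p3]
  linear_combination (2 * Q q * (1 + Q q ^ 2)) * hF

/-- `1 + z w` -/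
theorem id2 : (1 + ix (zz q) * iy (zz q)) =
    (1 + Q q ^ 2) * (1 + vx * vy) * (ix (rr q) * iy (rr q)) := by
  have hx := hcx q
  have hy := hcy q
  have hz := hzx q
  have hw := hzy q
  have hne : (1 - Q q * vx) * (1 - Q q * vy) ≠ 0 := mul_ne_zero cx_ne cy_ne
  apply mul_left_cancel₀ hne
  have e1 : (1 - Q q * vx) * (1 - Q q * vy) * (1 + ix (zz q) * iy (zz q)) =
      (1 - Q q * vx) * (1 - Q q * vy) + (ix (zz q) * (1 - Q q * vx)) *
        (iy (zz q) * (1 - Q q * vy)) := by ring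
  have e2 : (1 - Q q * vx) * (1 - Q q * vy) *
      ((1 + Q q ^ 2) * (1 + vx * vy) * (ix (rr q) * iy (rr q))) =
      (1 + Q q ^ 2) * (1 + vx * vy) * ((ix (rr q) * (1 - Q q * vx)) *
        (iy (rr q) * (1 - Q q * vy))) := by ring
  rw [e1, e2, hx, hy, hz, hw]
  ring

theorem GG1 : GG q 1 = iy (zz q) - ix (zz q) := by
  simp [GG, al, be]

theorem GG2 : GG q 2 = (iy (zz q) - ix (zz q)) * (1 + ix (zz q) * iy (zz q)) := by
  simp only [GG, Fin.sum_univ_two, al, be, Fin.val_zero, Fin.val_one]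
  ring

theorem GG3 : GG q 3 = (iy (zz q) - ix (zz q)) * ((1 + ix (zz q)) * (1 + iy (zz q))) := by
  simp only [GG, Fin.sum_univ_three, al, be, Fin.val_zero, Fin.val_one, Fin.val_two]
  ring

end

/-- **The comparison.** -/
theorem sandwich {q : ℝ} (hq : q ^ 2 + 2 * q = 1) (hq0 : 0 < q)
    (hD : ∀ i, Tendsto (fun k : ℕ => coeff i (zz q ^ k)) atTop (nhds 0)) (m : ℕ) (F : S2)
    (hF : (1 + vx * vy) * (1 - vx - vy - vx * vy) * F = vy - vx) :
    pf (mat (2 * m) F) ≤ pf (mat (2 * m) ((1 + ix (zz q) * iy (zz q)) * F)) ∧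
    pf (mat (2 * m) ((1 + ix (zz q) * iy (zz q)) * F)) ≤
      (1 + q) ^ (2 * m) * pf (mat (2 * m) F) := by
  have hV : ∃ c : ℝ, 0 < c ∧ ∀ f : Fin (2 * m) → ℕ,
      (Matrix.of fun (i j : Fin (2 * m)) => coeff (i : ℕ) (zz q ^ (f j) * rr q)).det =
      c * q ^ (∑ j, f j) * ∏ i, ∏ j ∈ Finset.Ioi i, ((f j : ℝ) - f i) := by
    have h := Pool.Agent.X287.BP.Minors.minors (2 * m) q hq0 (rr q) (by rw [mul_comm]; exact rr_mul q)
    exact h
  set a : ℝ := 1 / (2 * q) with ha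
  have ha0 : 0 < a := by positivity
  have hCa : 2 * Q q * iy (C a) = 1 := by
    have h : (2 * q) * a = 1 := by rw [ha]; field_simp
    have h' := congrArg (fun a : ℝ => iy (C a)) h
    simp only [map_mul, map_one, map_ofNat] at h'
    exact h'
  have h1 := id1 hq F hF
  have hE1 : (iy (C a) * F) * (1 - ix (zz q) ^ 2 * iy (zz q) ^ 2) =
      ix (rr q) * iy (rr q) * GG q 1 := by
    rw [GG1, mul_assoc, h1]
    linear_combination (ix (rr q) * iy (rr q) * (iy (zz q) - ix (zz q))) * hCa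
  have hE2 : (iy (C a) * ((1 + ix (zz q) * iy (zz q)) * F)) * (1 - ix (zz q) ^ 2 * iy (zz q) ^ 2) =
      ix (rr q) * iy (rr q) * GG q 2 := by
    rw [GG2]
    rw [GG1] at hE1
    linear_combination (1 + ix (zz q) * iy (zz q)) * hE1
  have hE3 : (iy (C a) * (ix (1 + zz q) * (iy (1 + zz q) * F))) *
      (1 - ix (zz q) ^ 2 * iy (zz q) ^ 2) = ix (rr q) * iy (rr q) * GG q 3 := by
    rw [GG3]
    rw [GG1] at hE1
    simp only [map_add, map_one]
    linear_combination ((1 + ix (zz q)) * (1 + iy (zz q))) * hE1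
  have c12 := comp_lim hq0.le hD m hV (by norm_num : (1 : ℕ) ≤ 2) (by norm_num) _ _ hE1 hE2
  have c23 := comp_lim hq0.le hD m hV (by norm_num : (2 : ℕ) ≤ 3) (by norm_num) _ _ hE2 hE3
  have hsm : ∀ G : S2, mat (2 * m) (iy (C a) * G) = a • mat (2 * m) G := by
    intro G
    ext i j
    simp only [mat, Matrix.of_apply, Matrix.smul_apply, smul_eq_mul, ent_smul]
  rw [hsm, hsm, pf_smul, pf_smul] at c12
  rw [hsm, hsm, pf_smul, pf_smul, mat_mul, pf_congr, det_To] at c23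
  have ham : 0 < a ^ m := by positivity
  have h0 : coeff 0 (1 + zz q) = 1 + q := by
    rw [map_add, zz_0]; simp
  rw [h0] at c23
  exact ⟨le_of_mul_le_mul_left c12 ham, le_of_mul_le_mul_left c23 ham⟩

end Pool.Agent.X294.GR
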