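import Pool.Agent.X294.GR.Gen
import Pool.Agent.X294.GR.Bd
import Pool.Agent.X294.GR.Idn
import Pool.Agent.X291.GR.Ext

/-!
# Bordered comparison
-/

namespace Pool.Agent.X294.GR

open Finset PowerSeries Filter Topology
open Pool.Agent.X291.GR.Ext (D Vp)

/-- first ends -/
def ea (K n d S : ℕ) : (Fin K × Fin n) ⊕ Fin S → Option ℕ
  | Sum.inl e => some (2 * (e.1 : ℕ) + d + al e.2)
  | Sum.inr s => some (s : ℕ)

/-- second ends -/
def eb (K n d S : ℕ) : (Fin K × Fin n) ⊕ Fin S → Option ℕ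
  | Sum.inl e => some (2 * (e.1 : ℕ) + d + be e.2)
  | Sum.inr _ => none

/-- weights -/
def ew (K n S : ℕ) (ω c : ℕ → ℝ) : (Fin K × Fin n) ⊕ Fin S → ℝ
  | Sum.inl e => ω e.2
  | Sum.inr s => c s

section
variable (q : ℝ)

/-- weighted kernel -/
noncomputable def GW (n : ℕ) (ω : ℕ → ℝ) : S2 := ∑ t : Fin n, iy (C (ω t)) *
  (ix (zz q) ^ al t * iy (zz q) ^ be t - ix (zz q) ^ be t * iy (zz q) ^ al t)

theorem Vp_some (M k : ℕ) (i : Fin (2 * (M + 1))) (hi : (i : ℕ) < 2 * M + 1) :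
    Vp M q (rr q) (some k) i = coeff (i : ℕ) (zz q ^ k * rr q) := by
  simp only [Vp, if_pos hi]
  rfl

theorem Vp_some' (M k : ℕ) (i : Fin (2 * (M + 1))) (hi : ¬ (i : ℕ) < 2 * M + 1) :
    Vp M q (rr q) (some k) i = 0 := by
  simp only [Vp, if_neg hi]

theorem Vp_none (M : ℕ) (i : Fin (2 * (M + 1))) (hi : (i : ℕ) < 2 * M + 1) :
    Vp M q (rr q) none i = 0 := by
  simp only [Vp, if_pos hi]

theorem Vp_none' (M : ℕ) (i : Fin (2 * (M + 1))) (hi : ¬ (i : ℕ) < 2 * M + 1) :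
    Vp M q (rr q) none i = 1 := by
  simp only [Vp, if_neg hi]

theorem My_bd (M K n d S : ℕ) (ω c : ℕ → ℝ) :
    My (Vp M q (rr q)) (ea K n d S) (eb K n d S) (ew K n S ω c) =
    bd M (ent (ix (rr q) * iy (rr q) * ((ix (zz q) * iy (zz q)) ^ d *
      ((∑ k : Fin K, (ix (zz q) ^ 2 * iy (zz q) ^ 2) ^ (k : ℕ)) * GW q n ω))))
      (cf (∑ s : Fin S, C (c s) * (zz q ^ (s : ℕ) * rr q))) := by
  ext i j
  simp only [My, bd, Matrix.of_apply, Fintype.sum_sum_type, ea, eb, ew]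
  by_cases hi : (i : ℕ) < 2 * M + 1 <;> by_cases hj : (j : ℕ) < 2 * M + 1
  · simp only [if_pos hi, if_pos hj]
    simp only [Vp_some q M _ i hi, Vp_some q M _ j hj, Vp_none q M i hi, Vp_none q M j hj,
      mul_zero, zero_mul, sub_zero, Finset.sum_const_zero, add_zero]
    have h : ix (rr q) * iy (rr q) * ((ix (zz q) * iy (zz q)) ^ d *
      ((∑ k : Fin K, (ix (zz q) ^ 2 * iy (zz q) ^ 2) ^ (k : ℕ)) * GW q n ω)) =
      ∑ e : Fin K × Fin n, iy (C (ω e.2)) *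
        (ix (zz q ^ (2 * (e.1 : ℕ) + d + al e.2) * rr q) *
          iy (zz q ^ (2 * (e.1 : ℕ) + d + be e.2) * rr q) -
        ix (zz q ^ (2 * (e.1 : ℕ) + d + be e.2) * rr q) *
          iy (zz q ^ (2 * (e.1 : ℕ) + d + al e.2) * rr q)) := by
      rw [Fintype.sum_prod_type, GW, Finset.sum_mul, Finset.mul_sum, Finset.mul_sum]
      apply Finset.sum_congr rfl
      intro k _
      rw [Finset.mul_sum, Finset.mul_sum, Finset.mul_sum]
      apply Finset.sum_congr rfl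
      intro t _
      simp only [map_mul, map_pow]
      ring
    rw [h, ent_sum]
    apply Finset.sum_congr rfl
    intro e _
    rw [ent_smul, ent_sub, ent_prod, ent_prod]
  · simp only [if_pos hi, if_neg hj]
    simp only [Vp_some q M _ i hi, Vp_some' q M _ j hj, Vp_none q M i hi, Vp_none' q M j hj,
      mul_zero, zero_mul, sub_zero, Finset.sum_const_zero, zero_add, mul_one]
    rw [cf, map_sum]
    apply Finset.sum_congr rfl
    intro s _
    rw [coeff_C_mul]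
  · simp only [if_neg hi, if_pos hj]
    simp only [Vp_some' q M _ i hi, Vp_some q M _ j hj, Vp_none' q M i hi, Vp_none q M j hj,
      mul_zero, zero_mul, sub_zero, Finset.sum_const_zero, zero_add, one_mul, zero_sub]
    rw [cf, map_sum, ← Finset.sum_neg_distrib]
    apply Finset.sum_congr rfl
    intro s _
    rw [coeff_C_mul]
    ring
  · simp only [if_neg hi, if_neg hj]
    simp only [Vp_some' q M _ i hi, Vp_some' q M _ j hj, mul_zero, zero_mul, sub_zero,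
      Finset.sum_const_zero, add_zero]

/-- the limit of the bordered Pfaffians -/
theorem lim_bd (hD : ∀ i, Tendsto (fun k : ℕ => coeff i (zz q ^ k)) atTop (nhds 0))
    (M n d : ℕ) (S : ℕ → ℕ) (ω c : ℕ → ℝ) (E : S2) (γ : S1)
    (hE : E * (1 - ix (zz q) ^ 2 * iy (zz q) ^ 2) =
      ix (rr q) * iy (rr q) * ((ix (zz q) * iy (zz q)) ^ d * GW q n ω))
    (hγ : ∀ i, Tendsto (fun K => coeff i (∑ s : Fin (S K), C (c s) * (zz q ^ (s : ℕ) * rr q)))
      atTop (nhds (coeff i γ))) :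
    Tendsto (fun K => pf (My (Vp M q (rr q)) (ea K n d (S K)) (eb K n d (S K))
      (ew K n (S K) ω c))) atTop (nhds (pf (bd M (ent E) (cf γ)))) := by
  apply (pf_cont.tendsto (bd M (ent E) (cf γ))).comp
  have h1 : ∀ (i j K : ℕ), ent (ix (rr q) * iy (rr q) * ((ix (zz q) * iy (zz q)) ^ d *
      ((∑ k : Fin K, (ix (zz q) ^ 2 * iy (zz q) ^ 2) ^ (k : ℕ)) * GW q n ω))) i j =
      ent E i j - ent ((ix (zz q) ^ 2 * iy (zz q) ^ 2) ^ K * E) i j := by
    intro i j K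
    rw [← ent_sub]
    congr 1
    have h2 := geom_sum_mul_neg (ix (zz q) ^ 2 * iy (zz q) ^ 2) K
    rw [Finset.sum_range] at h2
    linear_combination (-(∑ k : Fin K, (ix (zz q) ^ 2 * iy (zz q) ^ 2) ^ (k : ℕ))) * hE + E * h2
  refine tendsto_pi_nhds.2 (fun i => tendsto_pi_nhds.2 (fun j => ?_))
  simp only [My_bd, bd, Matrix.of_apply]
  by_cases hi : (i : ℕ) < 2 * M + 1 <;> by_cases hj : (j : ℕ) < 2 * M + 1
  · simp only [if_pos hi, if_pos hj, h1]
    have h3 := (tail q hD E i j).const_sub (ent E i j)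
    simpa using h3
  · simp only [if_pos hi, if_neg hj]
    exact hγ i
  · simp only [if_neg hi, if_pos hj]
    exact (hγ j).neg
  · simp only [if_neg hi, if_neg hj]
    exact tendsto_const_nhds

end

theorem D_anti (x y : Option ℕ) : D x y = - D y x := by
  cases x <;> cases y <;> simp [D]

theorem D_pos_fin {a b : ℕ} (h : a ≤ b) : 0 ≤ D (some a) (some b) := by
  have : (a : ℝ) ≤ b := by exact_mod_cast h
  simp only [D]
  linarith

/-- the positivity condition -/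
theorem hQ_all (K n d S : ℕ) (hn : n ≤ 3) (hd : d % 2 = 0) (hs : n ≤ 2 ∨ (d = 2 ∧ S ≤ 2))
    (e e' : (Fin K × Fin n) ⊕ Fin S) :
    0 ≤ (D (ea K n d S e) (ea K n d S e') * D (ea K n d S e) (eb K n d S e')) *
      (D (eb K n d S e) (ea K n d S e') * D (eb K n d S e) (eb K n d S e')) := by
  have hEd : ∀ e : Fin K × Fin n, Ed ((2 * (e.1 : ℕ) + d + al e.2 : ℕ) : ℤ)
      ((2 * (e.1 : ℕ) + d + be e.2 : ℕ) : ℤ) := by
    rintro ⟨k, t⟩
    have ht : (t : ℕ) = 0 ∨ (t : ℕ) = 1 ∨ (t : ℕ) = 2 := by have := t.2; omega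
    unfold Ed
    rcases ht with h | h | h <;> rw [h] <;> simp only [al, be] <;> omega
  have hfi : ∀ (e : Fin K × Fin n) (s : Fin S),
      (0 : ℤ) ≤ ((s : ℕ) - (2 * (e.1 : ℕ) + d + al e.2 : ℕ)) *
        ((s : ℕ) - (2 * (e.1 : ℕ) + d + be e.2 : ℕ)) := by
    rintro ⟨k, t⟩ s
    have hss := s.2
    have ht : (t : ℕ) = 0 ∨ (t : ℕ) = 1 ∨ (t : ℕ) = 2 := by have := t.2; omega
    have h2 : ∀ x y : ℤ, (y = x - 1 ∨ (x ≤ 0 ∧ y ≤ 0)) → 0 ≤ x * y := by
      rintro x y (h | ⟨h1, h2⟩)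
      · subst h
        rcases le_or_gt x 0 with h | h
        · nlinarith
        · have : 1 ≤ x := h
          nlinarith
      · nlinarith
    apply h2
    rcases ht with h | h | h <;> simp only [h, al, be] <;> have := t.2 <;> push_cast <;> omega
  rcases e with e | s <;> rcases e' with e' | s'
  · have h := Qnn (hEd e) (hEd e')
    simp only [ea, eb, D]
    have h' := (Int.cast_nonneg (R := ℝ) h)
    refine h'.trans (le_of_eq ?_)
    push_cast
    ring
  · have h := hfi e s'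
    have h' := (Int.cast_nonneg (R := ℝ) h)
    simp only [ea, eb, D]
    refine h'.trans (le_of_eq ?_)
    push_cast
    ring
  · have h := hfi e' s
    have h' := (Int.cast_nonneg (R := ℝ) h)
    simp only [ea, eb, D]
    refine h'.trans (le_of_eq ?_)
    push_cast
    ring
  · simp only [ea, eb, D]
    simp

theorem hD_all (K n d S : ℕ) (hn : n ≤ 3) (e : (Fin K × Fin n) ⊕ Fin S) :
    0 ≤ D (ea K n d S e) (eb K n d S e) := by
  rcases e with ⟨k, t⟩ | s
  · apply D_pos_fin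
    have ht : (t : ℕ) = 0 ∨ (t : ℕ) = 1 ∨ (t : ℕ) = 2 := by have := t.2; omega
    rcases ht with h | h | h <;> simp only [h, al, be] <;> omega
  · simp [ea, eb, D]

/-- **The bordered comparison in the limit.** -/
theorem comp_bd {q : ℝ} (hq : 0 < q)
    (hD : ∀ i, Tendsto (fun k : ℕ => coeff i (zz q ^ k)) atTop (nhds 0))
    (M n d : ℕ) (S : ℕ → ℕ) (hn : n ≤ 3) (hd : d % 2 = 0) (hs : n ≤ 2 ∨ (d = 2 ∧ ∀ K, S K ≤ 2))
    (ω c ω' c' : ℕ → ℝ) (hω0 : ∀ t, 0 ≤ ω t) (hc0 : ∀ t, 0 ≤ c t) (hω : ∀ t, ω t ≤ ω' t)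
    (hc : ∀ t, c t ≤ c' t) (E E' : S2) (γ γ' : S1)
    (hE : E * (1 - ix (zz q) ^ 2 * iy (zz q) ^ 2) =
      ix (rr q) * iy (rr q) * ((ix (zz q) * iy (zz q)) ^ d * GW q n ω))
    (hγ : ∀ i, Tendsto (fun K => coeff i (∑ s : Fin (S K), C (c s) * (zz q ^ (s : ℕ) * rr q)))
      atTop (nhds (coeff i γ)))
    (hE' : E' * (1 - ix (zz q) ^ 2 * iy (zz q) ^ 2) =
      ix (rr q) * iy (rr q) * ((ix (zz q) * iy (zz q)) ^ d * GW q n ω'))
    (hγ' : ∀ i, Tendsto (fun K => coeff i (∑ s : Fin (S K), C (c' s) * (zz q ^ (s : ℕ) * rr q)))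
      atTop (nhds (coeff i γ'))) :
    pf (bd M (ent E) (cf γ)) ≤ pf (bd M (ent E') (cf γ')) := by
  obtain ⟨χ, hχ, hV⟩ := Pool.Agent.X291.GR.Ext.ext_minors' M q hq (rr q)
    (by rw [mul_comm]; exact rr_mul q)
  refine le_of_tendsto_of_tendsto' (lim_bd q hD M n d S ω c E γ hE hγ)
    (lim_bd q hD M n d S ω' c' E' γ' hE' hγ') (fun K => ?_)
  apply comp_gen (Vp M q (rr q)) _ _ D D_anti χ hχ hV
  · exact hQ_all K n d (S K) hn hd (hs.imp id (fun h => ⟨h.1, h.2 K⟩))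
  · exact hD_all K n d (S K) hn
  · rintro (e | s)
    · exact hω0 _
    · exact hc0 _
  · rintro (e | s)
    · exact hω _
    · exact hc _

end Pool.Agent.X294.GR
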