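import Pool.Agent.X294.GR.Minor

/-!
# Comparison of Pfaffians
-/

namespace Pool.Agent.X294.GR

open Finset

variable {m : ℕ}

def al : ℕ → ℕ
  | 0 => 0
  | 1 => 1
  | _ => 0

def be : ℕ → ℕ
  | 0 => 1
  | 1 => 2
  | _ => 2

/-- the sum of the 2-forms -/
noncomputable def Mx (V : ℕ → Fin (2 * m) → ℝ) (K n : ℕ) :
    Matrix (Fin (2 * m)) (Fin (2 * m)) ℝ := Matrix.of fun i j =>
  ∑ e : Fin K × Fin n, (V (2 * (e.1 : ℕ) + al e.2) i * V (2 * (e.1 : ℕ) + be e.2) j -
    V (2 * (e.1 : ℕ) + be e.2) i * V (2 * (e.1 : ℕ) + al e.2) j)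

/-- the index of the vector -/
def ph {K n : ℕ} (x : (Fin K × Fin n) × Fin 2) : ℕ :=
  if x.2 = 0 then 2 * (x.1.1 : ℕ) + al x.1.2 else 2 * (x.1.1 : ℕ) + be x.1.2

/-- the standard form -/
def As (K n : ℕ) : Matrix ((Fin K × Fin n) × Fin 2) ((Fin K × Fin n) × Fin 2) ℝ :=
  Matrix.of fun x y => if x.1 = y.1 then
    (if x.2 = 0 then (if y.2 = 0 then 0 else 1) else (if y.2 = 0 then -1 else 0)) else 0

/-- the vectors -/
def Bs (V : ℕ → Fin (2 * m) → ℝ) (K n : ℕ) : Matrix (Fin (2 * m)) ((Fin K × Fin n) × Fin 2) ℝ :=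
  Matrix.of fun i x => V (ph x) i

theorem Mx_eq (V : ℕ → Fin (2 * m) → ℝ) (K n : ℕ) :
    Bs V K n * As K n * (Bs V K n).transpose = Mx V K n := by
  ext i j
  rw [Matrix.mul_apply]
  simp only [Matrix.mul_apply, Matrix.transpose_apply]
  rw [Fintype.sum_prod_type]
  simp only [Mx, Matrix.of_apply]
  apply Finset.sum_congr rfl
  intro e _
  rw [Fin.sum_univ_two]
  have hs : ∀ g : (Fin K × Fin n) × Fin 2 → ℝ, ∑ x, g x = ∑ e' : Fin K × Fin n, ∑ s : Fin 2, g (e', s) :=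
    fun g => Fintype.sum_prod_type g
  rw [hs, hs]
  have h0 : ∀ e' : Fin K × Fin n, ∑ s : Fin 2, Bs V K n i (e', s) * As K n (e', s) (e, 0) =
      if e' = e then - Bs V K n i (e, 1) else 0 := by
    intro e'
    rw [Fin.sum_univ_two]
    by_cases h : e' = e
    · subst h; simp [As]
    · simp [As, h]
  have h1 : ∀ e' : Fin K × Fin n, ∑ s : Fin 2, Bs V K n i (e', s) * As K n (e', s) (e, 1) =
      if e' = e then Bs V K n i (e, 0) else 0 := by
    intro e'
    rw [Fin.sum_univ_two]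
    by_cases h : e' = e
    · subst h; simp [As]
    · simp [As, h]
  simp only [h0, h1, Finset.sum_ite_eq', Finset.mem_univ, if_true]
  simp only [Bs, ph, Matrix.of_apply, if_true]
  have h3 : ¬ ((1 : Fin 2) = 0) := by decide
  simp only [h3, if_false]
  ring

/-- the edges -/
def Ed (a b : ℤ) : Prop := b = a + 1 ∨ (b = a + 2 ∧ a % 2 = 0)

theorem Qnn {a b c d : ℤ} (h1 : Ed a b) (h2 : Ed c d) :
    0 ≤ (c - a) * (d - a) * ((c - b) * (d - b)) := by
  unfold Ed at h1 h2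
  by_cases h3 : b ≤ c
  · have e1 : 0 ≤ c - a := by omega
    have e2 : 0 ≤ d - a := by omega
    have e3 : 0 ≤ c - b := by omega
    have e4 : 0 ≤ d - b := by omega
    positivity
  by_cases h4 : d ≤ a
  · have e1 : 0 ≤ a - c := by omega
    have e2 : 0 ≤ a - d := by omega
    have e3 : 0 ≤ b - c := by omega
    have e4 : 0 ≤ b - d := by omega
    have : (c - a) * (d - a) * ((c - b) * (d - b)) = (a - c) * (a - d) * ((b - c) * (b - d)) := by
      ring
    rw [this]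
    positivity
  have h5 : c = a ∨ d = b ∨ c = b ∨ d = a := by omega
  rcases h5 with h | h | h | h <;> subst h <;> simp

theorem ed_ph {K n : ℕ} (hn : n ≤ 3) (e : Fin K × Fin n) :
    Ed (ph (e, (0 : Fin 2)) : ℕ) (ph (e, (1 : Fin 2)) : ℕ) := by
  obtain ⟨k, t⟩ := e
  have h3 : ¬ ((1 : Fin 2) = 0) := by decide
  simp only [ph, if_true, h3, if_false, Ed]
  have ht : (t : ℕ) = 0 ∨ (t : ℕ) = 1 ∨ (t : ℕ) = 2 := by have := t.2; omega
  rcases ht with h | h | h <;> rw [h] <;> simp only [al, be] <;> omega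

/-- the product over the pairs, arranged in blocks -/
theorem prod_blocks (g : Fin (2 * m) → Fin (2 * m) → ℝ) :
    ∏ x, ∏ y ∈ Finset.Ioi x, g x y = ∏ i : Fin m, ∏ j : Fin m,
      (if i < j then (g (pr m i 0) (pr m j 0) * g (pr m i 0) (pr m j 1)) *
          (g (pr m i 1) (pr m j 0) * g (pr m i 1) (pr m j 1))
        else if i = j then g (pr m i 0) (pr m i 1) else 1) := by
  have h1 : ∀ x, ∏ y ∈ Finset.Ioi x, g x y = ∏ y, if x < y then g x y else 1 := by
    intro x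
    rw [← Finset.prod_filter]
    congr 1
    ext y; simp
  simp only [h1]
  rw [← Equiv.prod_comp (ee m), Fintype.prod_prod_type]
  apply Finset.prod_congr rfl
  intro i _
  rw [Fin.prod_univ_two, ← Finset.prod_mul_distrib]
  rw [← Equiv.prod_comp (ee m), Fintype.prod_prod_type]
  apply Finset.prod_congr rfl
  intro j _
  rw [Fin.prod_univ_two]
  have hp : ∀ (i : Fin m) (a : Fin 2), ee m (i, a) = pr m i a := fun i a => rfl
  simp only [hp]
  have hlt : ∀ (i j : Fin m) (a b : Fin 2), pr m i a < pr m j b ↔ 2 * (i : ℕ) + a < 2 * (j : ℕ) + b :=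
    fun i j a b => Iff.rfl
  simp only [hlt]
  have c0 : ((0 : Fin 2) : ℕ) = 0 := rfl
  have c1 : ((1 : Fin 2) : ℕ) = 1 := rfl
  rw [c0, c1]
  rcases lt_trichotomy i j with h | h | h
  · have h' : (i : ℕ) < j := h
    rw [if_pos (by omega), if_pos (by omega), if_pos (by omega), if_pos (by omega), if_pos h]
    ring
  · subst h
    rw [if_neg (by omega), if_neg (by omega), if_pos (by omega), if_neg (by omega),
      if_neg (lt_irrefl _), if_pos rfl]
    ring
  · have h' : (j : ℕ) < i := h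
    rw [if_neg (by omega), if_neg (by omega), if_neg (by omega), if_neg (by omega),
      if_neg (not_lt.2 h.le), if_neg (ne_of_gt h)]
    ring

/-- the term of the sum -/
noncomputable def W (V : ℕ → Fin (2 * m) → ℝ) (K n : ℕ)
    (f : Fin (2 * m) → (Fin K × Fin n) × Fin 2) : ℝ :=
  (∏ i : Fin m, As K n (f (pr m i 0)) (f (pr m i 1))) * ((Bs V K n).submatrix id f).det

theorem W_nonneg (V : ℕ → Fin (2 * m) → ℝ) {c q : ℝ} (hc : 0 ≤ c) (hq : 0 ≤ q)
    (hV : ∀ f : Fin (2 * m) → ℕ, (Matrix.of fun i j => V (f j) i).det =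
      c * q ^ (∑ j, f j) * ∏ i, ∏ j ∈ Finset.Ioi i, ((f j : ℝ) - f i))
    (K n : ℕ) (hn : n ≤ 3) (f : Fin (2 * m) → (Fin K × Fin n) × Fin 2) : 0 ≤ W V K n f := by
  unfold W
  have e1 : ((Bs V K n).submatrix id f).det = (Matrix.of fun i j => V (ph (f j)) i).det := rfl
  rw [e1, hV (fun j => ph (f j)), prod_blocks (fun x y => ((ph (f y) : ℝ)) - ph (f x))]
  by_cases hz : ∃ i : Fin m, As K n (f (pr m i 0)) (f (pr m i 1)) = 0
  · obtain ⟨i, hi⟩ := hz
    rw [Finset.prod_eq_zero (Finset.mem_univ i) hi, zero_mul]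
  push_neg at hz
  -- orientation of each pair
  have key : ∀ i : Fin m, ∃ e : Fin K × Fin n,
      (f (pr m i 0) = (e, 0) ∧ f (pr m i 1) = (e, 1) ∧
        As K n (f (pr m i 0)) (f (pr m i 1)) = 1) ∨
      (f (pr m i 0) = (e, 1) ∧ f (pr m i 1) = (e, 0) ∧
        As K n (f (pr m i 0)) (f (pr m i 1)) = -1) := by
    intro i
    have h := hz i
    rcases hx : f (pr m i 0) with ⟨e, s⟩
    rcases hy : f (pr m i 1) with ⟨e', s'⟩
    rw [hx, hy] at h
    refine ⟨e, ?_⟩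
    have hee : e = e' := by
      by_contra hne
      apply h
      simp [As, hne]
    subst hee
    have hs : s = 0 ∨ s = 1 := by omega
    have hs' : s' = 0 ∨ s' = 1 := by omega
    rcases hs with rfl | rfl <;> rcases hs' with rfl | rfl
    · exfalso; apply h; simp [As]
    · left; simp [As]
    · right; simp [As]
    · exfalso; apply h; simp [As]
  have hQ : ∀ i j : Fin m, 0 ≤ (((ph (f (pr m j 0)) : ℝ)) - ph (f (pr m i 0))) *
      ((ph (f (pr m j 1)) : ℝ) - ph (f (pr m i 0))) *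
      (((ph (f (pr m j 0)) : ℝ) - ph (f (pr m i 1))) *
      ((ph (f (pr m j 1)) : ℝ) - ph (f (pr m i 1)))) := by
    intro i j
    obtain ⟨e, he⟩ := key i
    obtain ⟨e', he'⟩ := key j
    have hZ := Qnn (ed_ph hn e) (ed_ph hn e')
    have hR : (0 : ℝ) ≤ (((ph (e', (0 : Fin 2)) : ℝ)) - ph (e, (0 : Fin 2))) *
      ((ph (e', (1 : Fin 2)) : ℝ) - ph (e, (0 : Fin 2))) *
      (((ph (e', (0 : Fin 2)) : ℝ) - ph (e, (1 : Fin 2))) *
      ((ph (e', (1 : Fin 2)) : ℝ) - ph (e, (1 : Fin 2)))) := by exact_mod_cast hZ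
    rcases he with ⟨h1, h2, _⟩ | ⟨h1, h2, _⟩ <;> rcases he' with ⟨h3, h4, _⟩ | ⟨h3, h4, _⟩ <;>
      rw [h1, h2, h3, h4] <;> refine hR.trans (le_of_eq ?_) <;> ring
  have hD : ∀ i : Fin m, 0 ≤ As K n (f (pr m i 0)) (f (pr m i 1)) *
      ((ph (f (pr m i 1)) : ℝ) - ph (f (pr m i 0))) := by
    intro i
    obtain ⟨e, he⟩ := key i
    have hE := ed_ph hn e
    have hE' : (ph (e, (0 : Fin 2)) : ℤ) ≤ (ph (e, (1 : Fin 2)) : ℤ) := by
      unfold Ed at hE; omega
    have hE'' : (ph (e, (0 : Fin 2)) : ℝ) ≤ (ph (e, (1 : Fin 2)) : ℝ) := by exact_mod_cast hE'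
    rcases he with ⟨h1, h2, h3⟩ | ⟨h1, h2, h3⟩
    · rw [h3, h1, h2]; linarith
    · rw [h3, h1, h2]; linarith
  have hrow : ∀ i : Fin m, 0 ≤ As K n (f (pr m i 0)) (f (pr m i 1)) * ∏ j : Fin m,
      (if i < j then ((((ph (f (pr m j 0)) : ℝ)) - ph (f (pr m i 0))) *
      ((ph (f (pr m j 1)) : ℝ) - ph (f (pr m i 0)))) *
      (((ph (f (pr m j 0)) : ℝ) - ph (f (pr m i 1))) *
      ((ph (f (pr m j 1)) : ℝ) - ph (f (pr m i 1))))
        else if i = j then ((ph (f (pr m i 1)) : ℝ) - ph (f (pr m i 0))) else 1) := by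
    intro i
    rw [← Finset.mul_prod_erase Finset.univ _ (Finset.mem_univ i), if_neg (lt_irrefl _),
      if_pos rfl, ← mul_assoc]
    apply mul_nonneg (hD i)
    apply Finset.prod_nonneg
    intro j hj
    have hne := (Finset.mem_erase.1 hj).1
    split_ifs with h1 h2
    · exact hQ i j
    · exact absurd h2.symm hne
    · exact zero_le_one
  have hall := Finset.prod_nonneg (fun i (_ : i ∈ (Finset.univ : Finset (Fin m))) => hrow i)
  rw [Finset.prod_mul_distrib] at hall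
  have hcq : 0 ≤ c * q ^ (∑ j, ph (f j)) := mul_nonneg hc (pow_nonneg hq _)
  have := mul_nonneg hcq hall
  refine this.trans (le_of_eq ?_)
  ring

theorem comp_pf (V : ℕ → Fin (2 * m) → ℝ) {c q : ℝ} (hc : 0 ≤ c) (hq : 0 ≤ q)
    (hV : ∀ f : Fin (2 * m) → ℕ, (Matrix.of fun i j => V (f j) i).det =
      c * q ^ (∑ j, f j) * ∏ i, ∏ j ∈ Finset.Ioi i, ((f j : ℝ) - f i))
    (K : ℕ) {n n' : ℕ} (hnn : n ≤ n') (hn : n' ≤ 3) : pf (Mx V K n) ≤ pf (Mx V K n') := by
  rw [← Mx_eq, ← Mx_eq, pf_minor, pf_minor]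
  apply div_le_div_of_nonneg_right _ (by positivity)
  change ∑ f, W V K n f ≤ ∑ f, W V K n' f
  let ι : (Fin K × Fin n) × Fin 2 → (Fin K × Fin n') × Fin 2 := fun x =>
    ((x.1.1, Fin.castLE hnn x.1.2), x.2)
  have hι : Function.Injective ι := by
    rintro ⟨⟨a, b⟩, s⟩ ⟨⟨a', b'⟩, s'⟩ h
    simp only [ι, Prod.mk.injEq, Fin.castLE_inj] at h
    obtain ⟨⟨h1, h2⟩, h3⟩ := h
    subst h1; subst h2; subst h3; rfl
  have h1 : ∀ f, W V K n f = W V K n' (fun x => ι (f x)) := by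
    intro f
    unfold W
    congr 1
    apply Finset.prod_congr rfl
    intro i _
    simp only [As, Matrix.of_apply, ι]
    have : ∀ x y : Fin K × Fin n, ((x.1, Fin.castLE hnn x.2) = (y.1, Fin.castLE hnn y.2)) ↔ x = y := by
      rintro ⟨a, b⟩ ⟨a', b'⟩
      simp [Prod.ext_iff]
    simp only [this]
  simp only [h1]
  have hinj : Function.Injective (fun f : Fin (2 * m) → (Fin K × Fin n) × Fin 2 =>
      (fun x => ι (f x))) := by
    intro f g h
    funext x
    exact hι (congrFun h x)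
  rw [← Finset.sum_image (f := fun f => W V K n' f) (g := fun f : Fin (2 * m) →
    (Fin K × Fin n) × Fin 2 => (fun x => ι (f x))) (fun a _ b _ h => hinj h)]
  apply Finset.sum_le_sum_of_subset_of_nonneg (Finset.subset_univ _)
  intro f _ _
  exact W_nonneg V hc hq hV K n' hn f

end Pool.Agent.X294.GR
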