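import Pool.Agent.X294.GR.Bor2
import Pool.Agent.X291.GR.Bk4
import Pool.Agent.X177.GR.Y5
import Pool.Agent.X287.BP.Growth2

/-!
# The second limit
-/

namespace Pool.Agent.X294.GR

open Finset PowerSeries Filter Topology

/-- the numbers `f_k` -/
def ff : ℕ → ℤ
  | 0 => 0
  | 1 => 2
  | 2 => 4
  | (n + 3) => 2 * ff (n + 2) + ff (n + 1)

/-- the matrix `B_{2n}` -/
def Bmat (n : ℕ) : Matrix (Fin (2 * n)) (Fin (2 * n)) ℝ := Matrix.of fun i j =>
  if (i : ℕ) + 1 < 2 * n then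
    (if (j : ℕ) + 1 < 2 * n then (aa ((i : ℕ) + 1) ((j : ℕ) + 1) : ℝ) else (ff ((i : ℕ) + 1) : ℝ))
  else (if (j : ℕ) + 1 < 2 * n then - (ff ((j : ℕ) + 1) : ℝ) else 0)

theorem Bmat_succ (M : ℕ) : Bmat (M + 1) =
    bd M (fun i j => (aa (i + 1) (j + 1) : ℝ)) (fun i => (ff (i + 1) : ℝ)) := by
  ext i j
  simp only [Bmat, bd, Matrix.of_apply]
  have h : ∀ k : ℕ, k + 1 < 2 * (M + 1) ↔ k < 2 * M + 1 := fun k => by omega
  simp only [h]

theorem bd_scale (M : ℕ) (e : ℕ → ℕ → ℝ) (g : ℕ → ℝ) (α β : ℝ) (hα : 0 < α) :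
    pf (bd M (fun i j => α * e i j) (fun i => β * g i)) = α ^ M * β * pf (bd M e g) := by
  set s : ℝ := √α with hs
  have hs2 : s ^ 2 = α := Real.sq_sqrt hα.le
  have hs0 : s ≠ 0 := (Real.sqrt_pos.2 hα).ne'
  set t : ℝ := β / s with ht
  have hst : s * t = β := by rw [ht]; field_simp
  set P : Matrix (Fin (2 * (M + 1))) (Fin (2 * (M + 1))) ℝ :=
    Matrix.diagonal fun i => if (i : ℕ) < 2 * M + 1 then s else t with hP
  have hdet : P.det = α ^ M * β := by
    rw [hP, Matrix.det_diagonal]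
    have h : (∏ i : Fin (2 * (M + 1)), (if (i : ℕ) < 2 * M + 1 then s else t)) =
        s ^ (2 * M + 1) * t := by
      change (∏ i : Fin (2 * M + 1 + 1), (if (i : ℕ) < 2 * M + 1 then s else t)) = _
      rw [Fin.prod_univ_castSucc]
      simp only [Fin.val_castSucc, Fin.is_lt, if_true, Fin.val_last, lt_irrefl, if_false,
        Finset.prod_const, Finset.card_univ, Fintype.card_fin]
    rw [h, pow_succ, pow_mul, hs2, mul_assoc, hst]
  rw [← hdet, ← pf_congr]
  congr 1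
  ext i j
  rw [hP, Matrix.diagonal_transpose, Matrix.mul_diagonal, Matrix.diagonal_mul]
  simp only [bd, Matrix.of_apply]
  split_ifs
  · rw [← hs2]; ring
  · rw [← hst]; ring
  · rw [← hst]; ring
  · ring

/-- `φ = 1 / (1 - 2x - x²)` -/
noncomputable def phi : S1 := (1 - 2 * X - X ^ 2)⁻¹

theorem phi_spec : phi * (1 - 2 * X - X ^ 2) = 1 := by
  unfold phi
  rw [PowerSeries.inv_mul_cancel]
  simp

theorem ff_phi (k : ℕ) : (ff (k + 1) : ℝ) = 2 * coeff k phi := by
  apply Pool.Agent.X177.GR.fib (fun k => (ff k : ℝ)) _ _ _ phi phi_spec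
  · simp [ff]
  · simp [ff]
  · intro k hk
    obtain ⟨j, rfl⟩ : ∃ j, k = j + 3 := ⟨k - 3, by omega⟩
    have e1 : j + 3 - 1 = j + 2 := by omega
    have e2 : j + 3 - 2 = j + 1 := by omega
    rw [e1, e2, ff]
    push_cast
    ring

theorem hQ1 : (C q : S1) ^ 2 + 2 * C q = 1 := by
  have h := congrArg (fun a : ℝ => (C a : S1)) q_eq
  simp only [map_add, map_mul, map_pow, map_one, map_ofNat] at h
  exact h

/-- the border of the problem -/
noncomputable def ga1 : S1 := C (ai * (1 + q ^ 2)) * phi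

theorem lin_ne : (1 - C q * X : S1) ≠ 0 := by
  intro h
  have := rr_mul q
  rw [h, mul_zero] at this
  exact zero_ne_one this

theorem ga1_spec : ga1 * (1 - zz q ^ 2) = rr q * (C 1 + C q * zz q) := by
  have hr := rr_mul q
  have hz := zz_mul q
  have hq := hQ1
  have hA : (2 : S1) * C q * C ai = 1 := by
    have h : (2 * q) * ai = 1 := by have := q_pos; unfold ai; field_simp
    have h' := congrArg (fun a : ℝ => (C a : S1)) h
    simp only [map_mul, map_one, map_ofNat] at h'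
    exact h'
  apply mul_right_cancel₀ (pow_ne_zero 2 lin_ne)
  have e1 : ga1 * (1 - zz q ^ 2) * (1 - C q * X) ^ 2 =
      ga1 * ((1 - C q * X) ^ 2 - (zz q * (1 - C q * X)) ^ 2) := by ring
  have e2 : rr q * (C 1 + C q * zz q) * (1 - C q * X) ^ 2 =
      (rr q * (1 - C q * X)) * ((1 - C q * X) + C q * (zz q * (1 - C q * X))) := by
    rw [map_one]; ring
  rw [e1, e2, hr, hz]
  have e3 : (1 - C q * X : S1) ^ 2 - (X + C q) ^ 2 = 2 * C q * (1 - 2 * X - X ^ 2) := by
    linear_combination (-(1 - X ^ 2)) * hq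
  rw [e3]
  unfold ga1
  rw [map_mul, map_add, map_one, map_pow]
  linear_combination (2 * C q * C ai * (1 + C q ^ 2)) * phi_spec + (1 + C q ^ 2) * hA

/-- the comparison border -/
noncomputable def ga2 : S1 := C (1 / (1 - q)) * (1 - C (1 + √2) * X)⁻¹

theorem ga2_geom : ga2 * (1 - C (1 + √2) * X) = C (1 / (1 - q)) := by
  unfold ga2
  rw [mul_assoc, PowerSeries.inv_mul_cancel, mul_one]
  simp

theorem ga2_spec : ga2 * (1 - zz q ^ 2) = rr q * (C 1 + C 1 * zz q) := by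
  have hr := rr_mul q
  have hz := zz_mul q
  have h1 : ga2 * (1 - zz q) = rr q := by
    apply mul_right_cancel₀ lin_ne
    have e1 : ga2 * (1 - zz q) * (1 - C q * X) = ga2 * ((1 - C q * X) - zz q * (1 - C q * X)) := by
      ring
    rw [e1, hr, hz]
    have e2 : (1 - C q * X - (X + C q) : S1) = C (1 - q) * (1 - C (1 + √2) * X) := by
      have h : (1 - q) * (1 + √2) = 1 + q := by
        unfold q
        have h : √(2 : ℝ) ^ 2 = 2 := Real.sq_sqrt (by norm_num)
        linear_combination (-1) * h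
      have h' := congrArg (fun a : ℝ => (C a : S1)) h
      simp only [map_mul, map_add, map_sub, map_one] at h'
      simp only [map_sub, map_add, map_one]
      linear_combination X * h'
    rw [e2]
    have h3 : (C (1 - q) : S1) * C (1 / (1 - q)) = 1 := by
      rw [← map_mul]
      have : (1 - q) * (1 / (1 - q)) = 1 := by
        have := q_lt
        have : 1 - q ≠ 0 := by linarith
        field_simp
      rw [this, map_one]
    linear_combination C (1 - q) * ga2_geom + h3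
  rw [map_one]
  linear_combination (1 + zz q) * h1

/-- the Pfaffian of `B` in terms of the kernel -/
theorem B_eq (M : ℕ) : pf (Bmat (M + 1)) =
    (4 * q) ^ M * (4 * q / (1 + q ^ 2)) * pf (bd M (ent E1) (cf ga1)) := by
  have hq := q_pos
  rw [← bd_scale M _ _ _ _ (by linarith), Bmat_succ]
  congr 2
  · funext i j
    rw [aa_ent]
    have h : ent E1 i j = ai * ent FF i j := ent_smul ai FF i j
    rw [h]
    unfold ai
    field_simp
    ring
  · funext i
    rw [ff_phi]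
    have h : cf ga1 i = (ai * (1 + q ^ 2)) * coeff i phi := by
      unfold cf ga1
      rw [coeff_C_mul]
    rw [h]
    unfold ai
    have : (1 + q ^ 2) ≠ 0 := by positivity
    field_simp
    ring

theorem B_lower (M : ℕ) : (2 : ℝ) ^ ((M + 1) ^ 2) ≤ 64 ^ (M + 1) * pf (Bmat (M + 1)) := by
  have hq := q_pos
  have hq1 := q_lt
  have hqe := q_eq
  have hq25 : 2 / 5 < q := by nlinarith
  have hL := bor_lower M ga1 ga1_spec
  rw [B_eq]
  set P := pf (bd M (ent E1) (cf ga1)) with hP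
  -- `(1 + q) ≤ 4 q`
  have h4 : 1 + q ≤ 4 * q := by linarith
  have hp : (1 + q) ^ (2 * M + 1) ≤ (4 * q) ^ (2 * M + 1) := pow_le_pow_left₀ (by linarith) h4 _
  have hPnn : 0 ≤ P := by
    by_contra hneg
    push_neg at hneg
    have h1 : 0 < q ^ (2 * M + 1) * ((ai * (1 + q ^ 2)) ^ M * 2 ^ (M ^ 2)) := by
      have := ai_pos; positivity
    have h2 : (1 + q) ^ (2 * M + 1) * P < 0 := mul_neg_of_pos_of_neg (by positivity) hneg
    linarith
  have h5 : q ^ (2 * M + 1) * ((ai * (1 + q ^ 2)) ^ M * 2 ^ (M ^ 2)) ≤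
      q ^ (2 * M + 1) * (4 ^ (2 * M + 1) * P) := by
    refine hL.trans ?_
    calc (1 + q) ^ (2 * M + 1) * P ≤ (4 * q) ^ (2 * M + 1) * P :=
        mul_le_mul_of_nonneg_right hp hPnn
      _ = q ^ (2 * M + 1) * (4 ^ (2 * M + 1) * P) := by rw [mul_pow]; ring
  have h6 : (ai * (1 + q ^ 2)) ^ M * 2 ^ (M ^ 2) ≤ 4 ^ (2 * M + 1) * P :=
    le_of_mul_le_mul_left h5 (by positivity)
  -- multiply by `(4 q)^M`
  have h7 : (4 * q) ^ M * (ai * (1 + q ^ 2)) ^ M = (2 * (1 + q ^ 2)) ^ M := by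
    rw [← mul_pow]
    congr 1
    unfold ai
    field_simp
    ring
  have h8 : (2 : ℝ) ^ M * 2 ^ (M ^ 2) ≤ 4 ^ (2 * M + 1) * ((4 * q) ^ M * P) := by
    calc (2 : ℝ) ^ M * 2 ^ (M ^ 2) ≤ (2 * (1 + q ^ 2)) ^ M * 2 ^ (M ^ 2) := by
          apply mul_le_mul_of_nonneg_right _ (by positivity)
          apply pow_le_pow_left₀ (by norm_num)
          nlinarith [sq_nonneg q]
      _ = (4 * q) ^ M * ((ai * (1 + q ^ 2)) ^ M * 2 ^ (M ^ 2)) := by rw [← h7]; ring
      _ ≤ (4 * q) ^ M * (4 ^ (2 * M + 1) * P) := mul_le_mul_of_nonneg_left h6 (by positivity)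
      _ = _ := by ring
  have h9 : 4 / 5 ≤ 4 * q / (1 + q ^ 2) := by
    rw [le_div_iff₀ (by positivity)]
    nlinarith
  have h10 : (0 : ℝ) ≤ (4 * q) ^ M * P := by positivity
  have e1 : (2 : ℝ) ^ ((M + 1) ^ 2) = 2 * 2 ^ M * (2 ^ M * 2 ^ (M ^ 2)) := by
    rw [show (M + 1) ^ 2 = 1 + M + (M + M ^ 2) by ring, pow_add, pow_add, pow_add]
    norm_num
  have e2 : (64 : ℝ) ^ (M + 1) = 64 * (4 ^ M * 16 ^ M) := by
    rw [pow_succ, ← mul_pow]; norm_num; ring
  have e3 : (4 : ℝ) ^ (2 * M + 1) = 4 * 16 ^ M := by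
    rw [pow_succ, pow_mul]; norm_num; ring
  rw [e3] at h8
  rw [e1, e2]
  have h11 : (2 : ℝ) ^ M ≤ 4 ^ M := pow_le_pow_left₀ (by norm_num) (by norm_num) _
  set Z := (4 * q) ^ M * P with hZ
  have h12 : 2 * 2 ^ M * ((2 : ℝ) ^ M * 2 ^ (M ^ 2)) ≤ 2 * 4 ^ M * (4 * 16 ^ M * Z) := by
    apply mul_le_mul _ h8 (by positivity) (by positivity)
    linarith
  refine h12.trans ?_
  have h13 : 64 * (4 ^ M * 16 ^ M) * ((4 * q) ^ M * (4 * q / (1 + q ^ 2)) * P) =
      64 * (4 ^ M * 16 ^ M) * Z * (4 * q / (1 + q ^ 2)) := by rw [hZ]; ring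
  rw [h13]
  have h14 : 0 ≤ 64 * ((4 : ℝ) ^ M * 16 ^ M) * Z := by positivity
  have h15 : 64 * ((4 : ℝ) ^ M * 16 ^ M) * Z * (4 / 5) ≤
      64 * (4 ^ M * 16 ^ M) * Z * (4 * q / (1 + q ^ 2)) := mul_le_mul_of_nonneg_left h9 h14
  refine le_trans ?_ h15
  have h16 : 0 ≤ ((4 : ℝ) ^ M * 16 ^ M) * Z := by positivity
  nlinarith

theorem B_upper : ∃ C : ℝ, 1 ≤ C ∧ ∀ M : ℕ, pf (Bmat (M + 1)) ≤
    C ^ (M + 1) * ((2 * (M + 1)).factorial : ℝ) * 2 ^ ((M + 1) ^ 2) := by
  have hq := q_pos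
  have hq1 := q_lt
  obtain ⟨C0, hC0, h⟩ := Pool.Agent.X291.GR.pf_bd_geom (ai * (1 + q ^ 2)) q (1 / (1 - q)) hq hq1
    (rr q) (rr_mul q) E2 E2_ker ga2 ga2_geom
  have hC00 : 0 < C0 := by linarith
  refine ⟨4 * C0, by linarith, fun M => ?_⟩
  rw [B_eq]
  have h1 := bor_upper M ga1 ga2 ga1_spec ga2_spec
  have h2 := (le_abs_self _).trans (h M)
  have h3 := h1.trans h2
  have h4 : (4 * q) ^ M * (4 * q / (1 + q ^ 2)) ≤ 4 ^ (M + 1) := by
    rw [pow_succ]
    have ha : (4 * q) ^ M ≤ 4 ^ M := pow_le_pow_left₀ (by positivity) (by linarith) M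
    have hb : 4 * q / (1 + q ^ 2) ≤ 4 := by
      rw [div_le_iff₀ (by positivity)]
      nlinarith [sq_nonneg q]
    have hc : 0 ≤ 4 * q / (1 + q ^ 2) := by positivity
    have hd : (0 : ℝ) ≤ 4 ^ M := pow_nonneg (by norm_num) M
    exact mul_le_mul ha hb hc hd
  have h5 : (2 : ℝ) ^ (M ^ 2) ≤ 2 ^ ((M + 1) ^ 2) := by
    apply pow_le_pow_right₀ (by norm_num)
    exact Nat.pow_le_pow_left (Nat.le_succ M) 2
  calc (4 * q) ^ M * (4 * q / (1 + q ^ 2)) * pf (bd M (ent E1) (cf ga1)) ≤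
      (4 * q) ^ M * (4 * q / (1 + q ^ 2)) *
        (C0 ^ (M + 1) * ((2 * (M + 1)).factorial : ℝ) * 2 ^ (M ^ 2)) :=
        mul_le_mul_of_nonneg_left h3 (by positivity)
    _ ≤ 4 ^ (M + 1) * (C0 ^ (M + 1) * ((2 * (M + 1)).factorial : ℝ) * 2 ^ ((M + 1) ^ 2)) := by
        apply mul_le_mul h4 _ (by positivity) (by positivity)
        apply mul_le_mul_of_nonneg_left h5 (by positivity)
    _ = _ := by rw [mul_pow]; ring

theorem pf_Bmat0 : pf (Bmat 0) = 1 := by
  simp [pf]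

/-- **The second limit.** -/
theorem B_limit : Tendsto (fun n : ℕ => (pf (Bmat n)) ^ ((2 : ℝ) / (2 * n - 1) ^ 2)) atTop
    (nhds (√2)) := by
  obtain ⟨C, hC, h⟩ := B_upper
  apply Pool.Agent.X287.BP.Growth2.growth2 (fun n => pf (Bmat n)) (max C 64)
    (hC.trans (le_max_left _ _))
  · intro n
    rcases n with _ | M
    · simp only [pf_Bmat0]; norm_num
    · refine (B_lower M).trans ?_
      have hnn : 0 ≤ pf (Bmat (M + 1)) := by
        have h1 := B_lower M
        by_contra hneg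
        push_neg at hneg
        have h2 : (64 : ℝ) ^ (M + 1) * pf (Bmat (M + 1)) < 0 :=
          mul_neg_of_pos_of_neg (by positivity) hneg
        have h3 : (0 : ℝ) < 2 ^ ((M + 1) ^ 2) := by positivity
        linarith
      apply mul_le_mul_of_nonneg_right _ hnn
      exact pow_le_pow_left₀ (by norm_num) (le_max_right _ _) _
  · intro n
    rcases n with _ | M
    · simp only [pf_Bmat0]; norm_num
    · refine (h M).trans ?_
      apply mul_le_mul_of_nonneg_right _ (by positivity)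
      apply mul_le_mul_of_nonneg_right _ (by positivity)
      exact pow_le_pow_left₀ (by linarith) (le_max_left _ _) _

end Pool.Agent.X294.GR
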