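import Pool.Agent.X294.GR.Comp

/-!
# General weighted comparison
-/

namespace Pool.Agent.X294.GR

open Finset

variable {m : ℕ} {I E : Type*} [Fintype E] [DecidableEq E]

/-- the weighted sum of the 2-forms -/
noncomputable def My (V : I → Fin (2 * m) → ℝ) (a b : E → I) (w : E → ℝ) :
    Matrix (Fin (2 * m)) (Fin (2 * m)) ℝ := Matrix.of fun i j =>
  ∑ e : E, w e * (V (a e) i * V (b e) j - V (b e) i * V (a e) j)

/-- the index of the vector -/
def pg (a b : E → I) (x : E × Fin 2) : I := if x.2 = 0 then a x.1 else b x.1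

/-- the standard form -/
def A0 (E : Type*) [DecidableEq E] : Matrix (E × Fin 2) (E × Fin 2) ℝ :=
  Matrix.of fun x y => if x.1 = y.1 then
    (if x.2 = 0 then (if y.2 = 0 then 0 else 1) else (if y.2 = 0 then -1 else 0)) else 0

/-- the weighted form -/
def Aw (w : E → ℝ) : Matrix (E × Fin 2) (E × Fin 2) ℝ := Matrix.of fun x y => w x.1 * A0 E x y

/-- the vectors -/
def Bg (V : I → Fin (2 * m) → ℝ) (a b : E → I) : Matrix (Fin (2 * m)) (E × Fin 2) ℝ :=
  Matrix.of fun i x => V (pg a b x) i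

theorem My_eq (V : I → Fin (2 * m) → ℝ) (a b : E → I) (w : E → ℝ) :
    Bg V a b * Aw w * (Bg V a b).transpose = My V a b w := by
  ext i j
  rw [Matrix.mul_apply]
  simp only [Matrix.mul_apply, Matrix.transpose_apply]
  rw [Fintype.sum_prod_type]
  simp only [My, Matrix.of_apply]
  apply Finset.sum_congr rfl
  intro e _
  rw [Fin.sum_univ_two]
  have hs : ∀ g : E × Fin 2 → ℝ, ∑ x, g x = ∑ e' : E, ∑ s : Fin 2, g (e', s) :=
    fun g => Fintype.sum_prod_type g
  rw [hs, hs]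
  have h0 : ∀ e' : E, ∑ s : Fin 2, Bg V a b i (e', s) * Aw w (e', s) (e, 0) =
      if e' = e then - (w e * Bg V a b i (e, 1)) else 0 := by
    intro e'
    rw [Fin.sum_univ_two]
    by_cases h : e' = e
    · subst h; simp [Aw, A0]; ring
    · simp [Aw, A0, h]
  have h1 : ∀ e' : E, ∑ s : Fin 2, Bg V a b i (e', s) * Aw w (e', s) (e, 1) =
      if e' = e then w e * Bg V a b i (e, 0) else 0 := by
    intro e'
    rw [Fin.sum_univ_two]
    by_cases h : e' = e
    · subst h; simp [Aw, A0]; ring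
    · simp [Aw, A0, h]
  simp only [h0, h1, Finset.sum_ite_eq', Finset.mem_univ, if_true]
  simp only [Bg, pg, Matrix.of_apply, if_true]
  have h3 : ¬ ((1 : Fin 2) = 0) := by decide
  simp only [h3, if_false]
  ring

/-- the unweighted term of the sum -/
noncomputable def W0 (V : I → Fin (2 * m) → ℝ) (a b : E → I) (f : Fin (2 * m) → E × Fin 2) : ℝ :=
  (∏ i : Fin m, A0 E (f (pr m i 0)) (f (pr m i 1))) * ((Bg V a b).submatrix id f).det

theorem W0_nonneg (V : I → Fin (2 * m) → ℝ) (a b : E → I) (D : I → I → ℝ)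
    (hanti : ∀ x y, D x y = - D y x) (χ : (Fin (2 * m) → I) → ℝ) (hχ : ∀ f, 0 ≤ χ f)
    (hV : ∀ f : Fin (2 * m) → I, (Matrix.of fun i j => V (f j) i).det =
      χ f * ∏ x, ∏ y ∈ Finset.Ioi x, D (f x) (f y))
    (hQ : ∀ e e', 0 ≤ (D (a e) (a e') * D (a e) (b e')) * (D (b e) (a e') * D (b e) (b e')))
    (hD : ∀ e, 0 ≤ D (a e) (b e))
    (f : Fin (2 * m) → E × Fin 2) : 0 ≤ W0 V a b f := by
  unfold W0
  have e1 : ((Bg V a b).submatrix id f).det = (Matrix.of fun i j => V (pg a b (f j)) i).det := rfl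
  rw [e1, hV (fun j => pg a b (f j)), prod_blocks (fun x y => D (pg a b (f x)) (pg a b (f y)))]
  by_cases hz : ∃ i : Fin m, A0 E (f (pr m i 0)) (f (pr m i 1)) = 0
  · obtain ⟨i, hi⟩ := hz
    rw [Finset.prod_eq_zero (Finset.mem_univ i) hi, zero_mul]
  push_neg at hz
  have key : ∀ i : Fin m, ∃ e : E,
      (f (pr m i 0) = (e, 0) ∧ f (pr m i 1) = (e, 1) ∧
        A0 E (f (pr m i 0)) (f (pr m i 1)) = 1) ∨
      (f (pr m i 0) = (e, 1) ∧ f (pr m i 1) = (e, 0) ∧
        A0 E (f (pr m i 0)) (f (pr m i 1)) = -1) := by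
    intro i
    have h := hz i
    rcases hx : f (pr m i 0) with ⟨e, s⟩
    rcases hy : f (pr m i 1) with ⟨e', s'⟩
    rw [hx, hy] at h
    refine ⟨e, ?_⟩
    have hee : e = e' := by
      by_contra hne
      apply h
      simp [A0, hne]
    subst hee
    have hs : s = 0 ∨ s = 1 := by omega
    have hs' : s' = 0 ∨ s' = 1 := by omega
    rcases hs with rfl | rfl <;> rcases hs' with rfl | rfl
    · exfalso; apply h; simp [A0]
    · left; simp [A0]
    · right; simp [A0]
    · exfalso; apply h; simp [A0]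
  have p0 : ∀ e : E, pg a b (e, (0 : Fin 2)) = a e := fun e => by simp [pg]
  have p1 : ∀ e : E, pg a b (e, (1 : Fin 2)) = b e := fun e => by simp [pg]
  have hQ' : ∀ i j : Fin m, 0 ≤ (D (pg a b (f (pr m i 0))) (pg a b (f (pr m j 0))) *
      D (pg a b (f (pr m i 0))) (pg a b (f (pr m j 1)))) *
      (D (pg a b (f (pr m i 1))) (pg a b (f (pr m j 0))) *
      D (pg a b (f (pr m i 1))) (pg a b (f (pr m j 1)))) := by
    intro i j
    obtain ⟨e, he⟩ := key i
    obtain ⟨e', he'⟩ := key j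
    have hR := hQ e e'
    rcases he with ⟨h1, h2, _⟩ | ⟨h1, h2, _⟩ <;> rcases he' with ⟨h3, h4, _⟩ | ⟨h3, h4, _⟩ <;>
      rw [h1, h2, h3, h4] <;> simp only [p0, p1] <;> refine hR.trans (le_of_eq ?_) <;> ring
  have hD' : ∀ i : Fin m, 0 ≤ A0 E (f (pr m i 0)) (f (pr m i 1)) *
      D (pg a b (f (pr m i 0))) (pg a b (f (pr m i 1))) := by
    intro i
    obtain ⟨e, he⟩ := key i
    have hE := hD e
    rcases he with ⟨h1, h2, h3⟩ | ⟨h1, h2, h3⟩
    · rw [h3, h1, h2, p0, p1]; linarith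
    · rw [h3, h1, h2, p0, p1, hanti (b e) (a e)]; linarith
  have hrow : ∀ i : Fin m, 0 ≤ A0 E (f (pr m i 0)) (f (pr m i 1)) * ∏ j : Fin m,
      (if i < j then (D (pg a b (f (pr m i 0))) (pg a b (f (pr m j 0))) *
      D (pg a b (f (pr m i 0))) (pg a b (f (pr m j 1)))) *
      (D (pg a b (f (pr m i 1))) (pg a b (f (pr m j 0))) *
      D (pg a b (f (pr m i 1))) (pg a b (f (pr m j 1))))
        else if i = j then D (pg a b (f (pr m i 0))) (pg a b (f (pr m i 1))) else 1) := by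
    intro i
    rw [← Finset.mul_prod_erase Finset.univ _ (Finset.mem_univ i), if_neg (lt_irrefl _),
      if_pos rfl, ← mul_assoc]
    apply mul_nonneg (hD' i)
    apply Finset.prod_nonneg
    intro j hj
    have hne := (Finset.mem_erase.1 hj).1
    split_ifs with h1 h2
    · exact hQ' i j
    · exact absurd h2.symm hne
    · exact zero_le_one
  have hall := Finset.prod_nonneg (fun i (_ : i ∈ (Finset.univ : Finset (Fin m))) => hrow i)
  rw [Finset.prod_mul_distrib] at hall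
  have := mul_nonneg (hχ (fun j => pg a b (f j))) hall
  refine this.trans (le_of_eq ?_)
  ring

theorem pf_My (V : I → Fin (2 * m) → ℝ) (a b : E → I) (w : E → ℝ) :
    pf (My V a b w) = (∑ f : Fin (2 * m) → E × Fin 2,
      (∏ i : Fin m, w (f (pr m i 0)).1) * W0 V a b f) / (2 ^ m * (m.factorial : ℝ)) := by
  rw [← My_eq, pf_minor]
  congr 1
  apply Finset.sum_congr rfl
  intro f _
  unfold W0
  rw [← mul_assoc, ← Finset.prod_mul_distrib]
  rfl

/-- **The general comparison.** -/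
theorem comp_gen (V : I → Fin (2 * m) → ℝ) (a b : E → I) (D : I → I → ℝ)
    (hanti : ∀ x y, D x y = - D y x) (χ : (Fin (2 * m) → I) → ℝ) (hχ : ∀ f, 0 ≤ χ f)
    (hV : ∀ f : Fin (2 * m) → I, (Matrix.of fun i j => V (f j) i).det =
      χ f * ∏ x, ∏ y ∈ Finset.Ioi x, D (f x) (f y))
    (hQ : ∀ e e', 0 ≤ (D (a e) (a e') * D (a e) (b e')) * (D (b e) (a e') * D (b e) (b e')))
    (hD : ∀ e, 0 ≤ D (a e) (b e)) (w w' : E → ℝ) (h0 : ∀ e, 0 ≤ w e) (hw : ∀ e, w e ≤ w' e) :
    pf (My V a b w) ≤ pf (My V a b w') := by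
  rw [pf_My, pf_My]
  apply div_le_div_of_nonneg_right _ (by positivity)
  apply Finset.sum_le_sum
  intro f _
  apply mul_le_mul_of_nonneg_right _ (W0_nonneg V a b D hanti χ hχ hV hQ hD f)
  apply Finset.prod_le_prod
  · intro i _; exact h0 _
  · intro i _; exact hw _

end Pool.Agent.X294.GR
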