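import Pool.Agent.X294.GR.Comp

/-!
# Kernels
-/

namespace Pool.Agent.X294.GR

open Finset PowerSeries Filter Topology

abbrev S1 := PowerSeries ℝ

/-- series in `x` -/
noncomputable def ix : S1 →+* S2 := PowerSeries.map (C : ℝ →+* S1)
/-- series in `y` -/
noncomputable def iy : S1 →+* S2 := (C : S1 →+* S2)

theorem ix_X : ix X = vx := by simp [ix, vx]
theorem iy_X : iy X = vy := rfl
theorem ix_C (a : ℝ) : ix (C a) = iy (C a) := by
  simp [ix, iy]

theorem coeff_ix (P : S1) (i : ℕ) : coeff i (ix P) = C (coeff i P) := by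
  simp [ix]

theorem ent_prod (P Q : S1) (i j : ℕ) : ent (ix P * iy Q) i j = coeff i P * coeff j Q := by
  unfold ent iy
  rw [coeff_mul_C, coeff_ix, coeff_C_mul]

theorem ent_add (F G : S2) (i j : ℕ) : ent (F + G) i j = ent F i j + ent G i j := by
  simp [ent]
theorem ent_sub (F G : S2) (i j : ℕ) : ent (F - G) i j = ent F i j - ent G i j := by
  simp [ent]
theorem ent_sum {ι : Type*} (s : Finset ι) (F : ι → S2) (i j : ℕ) :
    ent (∑ e ∈ s, F e) i j = ∑ e ∈ s, ent (F e) i j := by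
  simp [ent]
theorem ent_smul (a : ℝ) (F : S2) (i j : ℕ) : ent (iy (C a) * F) i j = a * ent F i j := by
  simp only [ent, iy, coeff_C_mul]

/-- the product with two one-variable series -/
theorem ent_mul (P Q : S1) (F : S2) (i j : ℕ) : ent (ix P * (iy Q * F)) i j =
    ∑ p ∈ antidiagonal i, ∑ s ∈ antidiagonal j, coeff p.1 P * (coeff s.1 Q * ent F p.2 s.2) := by
  unfold ent
  rw [coeff_mul, map_sum]
  apply Finset.sum_congr rfl
  intro p _
  rw [coeff_ix, coeff_C_mul, iy, coeff_C_mul, coeff_mul, Finset.mul_sum]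

/-- Toeplitz matrix -/
noncomputable def To (N : ℕ) (P : S1) : Matrix (Fin N) (Fin N) ℝ :=
  Matrix.of fun i a => if (a : ℕ) ≤ i then coeff ((i : ℕ) - a) P else 0

/-- matrix of a kernel -/
noncomputable def mat (N : ℕ) (F : S2) : Matrix (Fin N) (Fin N) ℝ := Matrix.of fun i j => ent F i j

theorem anti_fin {N : ℕ} (i : Fin N) (P : S1) (g : ℕ → ℝ) :
    ∑ p ∈ antidiagonal (i : ℕ), coeff p.1 P * g p.2 = ∑ a : Fin N, To N P i a * g a := by
  have h1 : ∑ p ∈ antidiagonal (i : ℕ), coeff p.1 P * g p.2 =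
      ∑ p ∈ antidiagonal (i : ℕ), coeff p.2 P * g p.1 :=
    (Finset.Nat.sum_antidiagonal_swap (n := (i : ℕ)) (f := fun p => coeff p.2 P * g p.1))
  rw [h1, Finset.Nat.sum_antidiagonal_eq_sum_range_succ (fun a b => coeff b P * g a)]
  have h2 : ∑ a : Fin N, To N P i a * g a =
      ∑ a ∈ range N, (if a ≤ (i : ℕ) then coeff ((i : ℕ) - a) P else 0) * g a := by
    rw [Finset.sum_range]
    rfl
  rw [h2]
  have hsub : range ((i : ℕ).succ) ⊆ range N := by
    intro a ha
    rw [Finset.mem_range] at ha ⊢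
    have := i.2; omega
  rw [← Finset.sum_subset hsub]
  · apply Finset.sum_congr rfl
    intro a ha
    rw [Finset.mem_range] at ha
    rw [if_pos (by omega)]
  · intro a _ ha
    rw [Finset.mem_range] at ha
    rw [if_neg (by omega), zero_mul]

theorem mat_mul (N : ℕ) (P Q : S1) (F : S2) :
    mat N (ix P * (iy Q * F)) = To N P * mat N F * (To N Q).transpose := by
  ext i j
  rw [mat, Matrix.of_apply, ent_mul]
  have h1 : ∀ p : ℕ × ℕ, ∑ s ∈ antidiagonal (j : ℕ), coeff p.1 P * (coeff s.1 Q * ent F p.2 s.2) =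
      coeff p.1 P * ∑ b : Fin N, To N Q j b * ent F p.2 b := by
    intro p
    rw [← Finset.mul_sum, anti_fin j Q (fun s => ent F p.2 s)]
  simp only [h1]
  rw [anti_fin i P (fun a => ∑ b : Fin N, To N Q j b * ent F a b)]
  rw [Matrix.mul_apply]
  simp only [Matrix.mul_apply, Matrix.transpose_apply, Finset.mul_sum, Finset.sum_mul]
  rw [Finset.sum_comm]
  apply Finset.sum_congr rfl
  intro b _
  apply Finset.sum_congr rfl
  intro a _
  simp only [mat, Matrix.of_apply]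
  ring

theorem det_To (N : ℕ) (P : S1) : (To N P).det = (coeff 0 P) ^ N := by
  rw [Matrix.det_of_lowerTriangular]
  · simp [To]
  · intro i j hij
    have hij' : (i : ℕ) < j := by simpa using hij
    simp only [To, Matrix.of_apply]
    rw [if_neg (by omega)]

/-! ## the series -/

section
variable (q : ℝ)

/-- `1 / (1 - q x)` -/
noncomputable def rr : S1 := (1 - C q * X)⁻¹
/-- `(x + q) / (1 - q x)` -/
noncomputable def zz : S1 := (X + C q) * rr q

theorem rr_mul : rr q * (1 - C q * X) = 1 := by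
  unfold rr
  rw [PowerSeries.inv_mul_cancel]
  simp

theorem zz_mul : zz q * (1 - C q * X) = X + C q := by
  unfold zz
  rw [mul_assoc, rr_mul, mul_one]

theorem rr_0 : coeff 0 (rr q) = 1 := by
  have h := congrArg (coeff 0) (rr_mul q)
  rw [mul_sub, map_sub] at h
  simpa using h

theorem zz_0 : coeff 0 (zz q) = q := by
  unfold zz
  have h := rr_0 q
  simp only [coeff_zero_eq_constantCoeff, map_mul, map_add] at h ⊢
  rw [h]; simp

/-- the vectors -/
noncomputable def VV (m : ℕ) (k : ℕ) (i : Fin (2 * m)) : ℝ := coeff (i : ℕ) (zz q ^ k * rr q)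

/-- the kernel of the 2-form -/
noncomputable def GG (n : ℕ) : S2 := ∑ t : Fin n,
  (ix (zz q) ^ al t * iy (zz q) ^ be t - ix (zz q) ^ be t * iy (zz q) ^ al t)

theorem Mx_ent (m K n : ℕ) : Mx (VV q m) K n = mat (2 * m) (ix (rr q) * iy (rr q) *
    ((∑ k : Fin K, (ix (zz q) ^ 2 * iy (zz q) ^ 2) ^ (k : ℕ)) * GG q n)) := by
  ext i j
  simp only [Mx, mat, Matrix.of_apply]
  have h : ix (rr q) * iy (rr q) *
    ((∑ k : Fin K, (ix (zz q) ^ 2 * iy (zz q) ^ 2) ^ (k : ℕ)) * GG q n) =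
    ∑ e : Fin K × Fin n, (ix (zz q ^ (2 * (e.1 : ℕ) + al e.2) * rr q) *
        iy (zz q ^ (2 * (e.1 : ℕ) + be e.2) * rr q) -
      ix (zz q ^ (2 * (e.1 : ℕ) + be e.2) * rr q) *
        iy (zz q ^ (2 * (e.1 : ℕ) + al e.2) * rr q)) := by
    rw [Fintype.sum_prod_type, GG, Finset.sum_mul, Finset.mul_sum]
    apply Finset.sum_congr rfl
    intro k _
    rw [Finset.mul_sum, Finset.mul_sum]
    apply Finset.sum_congr rfl
    intro t _
    simp only [map_mul, map_pow]
    ring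
  rw [h, ent_sum]
  apply Finset.sum_congr rfl
  intro e _
  rw [ent_sub, ent_prod, ent_prod]
  rfl

theorem tail (hD : ∀ i, Tendsto (fun k : ℕ => coeff i (zz q ^ k)) atTop (nhds 0)) (E : S2)
    (i j : ℕ) :
    Tendsto (fun K : ℕ => ent ((ix (zz q) ^ 2 * iy (zz q) ^ 2) ^ K * E) i j) atTop (nhds 0) := by
  have h1 : ∀ K : ℕ, ent ((ix (zz q) ^ 2 * iy (zz q) ^ 2) ^ K * E) i j =
      ∑ p ∈ antidiagonal i, ∑ s ∈ antidiagonal j,
        coeff p.1 (zz q ^ (2 * K)) * (coeff s.1 (zz q ^ (2 * K)) * ent E p.2 s.2) := by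
    intro K
    rw [← ent_mul]
    congr 1
    simp only [map_pow]
    rw [mul_pow, ← pow_mul, ← pow_mul]
    ring
  simp only [h1]
  rw [show (0 : ℝ) = ∑ p ∈ antidiagonal i, ∑ s ∈ antidiagonal j,
    0 * (0 * ent E p.2 s.2) by simp]
  have h2 : Tendsto (fun K : ℕ => 2 * K) atTop atTop :=
    tendsto_atTop_mono (fun n => by simp only [id]; omega) tendsto_id
  apply tendsto_finset_sum
  intro p _
  apply tendsto_finset_sum
  intro s _
  apply Tendsto.mul
  · exact (hD p.1).comp h2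
  · exact Tendsto.mul_const _ ((hD s.1).comp h2)

theorem lim_Mx (hD : ∀ i, Tendsto (fun k : ℕ => coeff i (zz q ^ k)) atTop (nhds 0))
    (m n : ℕ) (E : S2)
    (hE : E * (1 - ix (zz q) ^ 2 * iy (zz q) ^ 2) = ix (rr q) * iy (rr q) * GG q n) :
    Tendsto (fun K => pf (Mx (VV q m) K n)) atTop (nhds (pf (mat (2 * m) E))) := by
  apply (pf_cont.tendsto (mat (2 * m) E)).comp
  refine tendsto_pi_nhds.2 (fun i => tendsto_pi_nhds.2 (fun j => ?_))
  have h1 : ∀ K : ℕ, Mx (VV q m) K n i j =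
      ent E i j - ent ((ix (zz q) ^ 2 * iy (zz q) ^ 2) ^ K * E) i j := by
    intro K
    rw [Mx_ent, mat, Matrix.of_apply, ← ent_sub]
    congr 1
    have h2 := geom_sum_mul_neg (ix (zz q) ^ 2 * iy (zz q) ^ 2) K
    rw [Finset.sum_range] at h2
    linear_combination (-(∑ k : Fin K, (ix (zz q) ^ 2 * iy (zz q) ^ 2) ^ (k : ℕ))) * hE + E * h2
  simp only [h1]
  have h3 := (tail q hD E i j).const_sub (ent E i j)
  simpa [mat] using h3

end

/-- the comparison in the limit -/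
theorem comp_lim {q : ℝ} (hq : 0 ≤ q)
    (hD : ∀ i, Tendsto (fun k : ℕ => coeff i (zz q ^ k)) atTop (nhds 0)) (m : ℕ)
    (hV : ∃ c : ℝ, 0 < c ∧ ∀ f : Fin (2 * m) → ℕ,
      (Matrix.of fun (i j : Fin (2 * m)) => coeff (i : ℕ) (zz q ^ (f j) * rr q)).det =
      c * q ^ (∑ j, f j) * ∏ i, ∏ j ∈ Finset.Ioi i, ((f j : ℝ) - f i))
    {n n' : ℕ} (hnn : n ≤ n') (hn : n' ≤ 3) (E E' : S2)
    (hE : E * (1 - ix (zz q) ^ 2 * iy (zz q) ^ 2) = ix (rr q) * iy (rr q) * GG q n)
    (hE' : E' * (1 - ix (zz q) ^ 2 * iy (zz q) ^ 2) = ix (rr q) * iy (rr q) * GG q n') :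
    pf (mat (2 * m) E) ≤ pf (mat (2 * m) E') := by
  obtain ⟨c, hc, hV⟩ := hV
  exact le_of_tendsto_of_tendsto' (lim_Mx q hD m n E hE) (lim_Mx q hD m n' E' hE')
    (fun K => comp_pf (VV q m) hc.le hq hV K hnn hn)

end Pool.Agent.X294.GR
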